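import Pool.Agent.Lib_MP_79ab39_r.SurfR

/-! The rational surface is connected, and rational. -/

open MvPolynomial

namespace MP79ab39.Rat

open MP79ab39

lemma compl_zero_connected : IsConnected {v : ℂ × ℂ | v ≠ 0} := by
  have h : (1 : Cardinal) < Module.rank ℝ (ℂ × ℂ) := by
    rw [rank_prod', Complex.rank_real_complex]
    norm_num
  exact isConnected_compl_singleton_of_one_lt_rank h 0

lemma fibre_preconnected (a b : ℂ) : IsPreconnected {v : ℂ × ℂ | v ≠ 0 ∧ v.1 * a = v.2 * b} := by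
  by_cases hab : a = 0 ∧ b = 0
  · obtain ⟨rfl, rfl⟩ := hab
    have : {v : ℂ × ℂ | v ≠ 0 ∧ v.1 * (0 : ℂ) = v.2 * 0} = {v : ℂ × ℂ | v ≠ 0} := by
      ext v; simp
    rw [this]
    exact compl_zero_connected.isPreconnected
  · have hC : IsPreconnected ({0}ᶜ : Set ℂ) := by
      have h : (1 : Cardinal) < Module.rank ℝ ℂ := by
        rw [Complex.rank_real_complex]; norm_num
      exact (isConnected_compl_singleton_of_one_lt_rank h 0).isPreconnected
    have himg : {v : ℂ × ℂ | v ≠ 0 ∧ v.1 * a = v.2 * b} =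
        (fun t : ℂ => ((t * b, t * a) : ℂ × ℂ)) '' ({0}ᶜ : Set ℂ) := by
      ext ⟨v0, v1⟩
      simp only [Set.mem_ofPred_eq, Set.mem_image, Set.mem_compl_iff, Set.mem_singleton_iff,
        Prod.mk.injEq, ne_eq, Prod.mk_eq_zero]
      constructor
      · rintro ⟨h1, h2⟩
        by_cases ha : a = 0
        · have hb : b ≠ 0 := fun hb => hab ⟨ha, hb⟩
          subst ha
          have hv1 : v1 = 0 := by
            apply mul_right_cancel₀ hb
            linear_combination -h2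
          refine ⟨v0 / b, ?_, ?_, ?_⟩
          · intro h
            rw [div_eq_zero_iff] at h
            rcases h with h | h
            · exact h1 ⟨h, hv1⟩
            · exact hb h
          · field_simp
          · rw [mul_zero, hv1]
        · refine ⟨v1 / a, ?_, ?_, ?_⟩
          · intro h
            rw [div_eq_zero_iff] at h
            rcases h with h | h
            · refine h1 ⟨?_, h⟩
              apply mul_right_cancel₀ ha
              rw [h2, h, zero_mul, zero_mul]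
            · exact ha h
          · field_simp
            linear_combination -h2
          · field_simp
      · rintro ⟨t, ht, rfl, rfl⟩
        refine ⟨?_, by ring⟩
        rintro ⟨h1, h2⟩
        exact hab ⟨(mul_eq_zero.1 h2).resolve_left ht, (mul_eq_zero.1 h1).resolve_left ht⟩
    rw [himg]
    exact hC.image _ (by fun_prop)

/-- adjoining a point of the projective line given by one linear equation preserves
connectedness -/
theorem step {T : Type*} [TopologicalSpace T] {S : Set T} (hS : IsConnected S) {A B : T → ℂ}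
    (hA : Continuous A) (hB : Continuous B) :
    IsConnected {p : T × (ℂ × ℂ) | p.1 ∈ S ∧ p.2 ≠ 0 ∧ p.2.1 * A p.1 = p.2.2 * B p.1} := by
  constructor
  · obtain ⟨s, hs⟩ := hS.nonempty
    by_cases hab : (B s, A s) = (0 : ℂ × ℂ)
    · refine ⟨(s, (1, 0)), hs, by simp, ?_⟩
      simp only [Prod.mk_eq_zero] at hab
      simp [hab.1, hab.2]
    · exact ⟨(s, (B s, A s)), hs, hab, by simp [mul_comm]⟩
  · set K : Set (ℂ × ℂ) := Metric.sphere 0 1 with hK
    have hKc : CompactSpace K := isCompact_iff_compactSpace.1 (isCompact_sphere _ _)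
    -- the shadow of a closed set
    set sh : Set (T × (ℂ × ℂ)) → Set T := fun t =>
      Prod.fst '' {p : T × K | (p.1, (p.2 : ℂ × ℂ)) ∈ t ∧
        (p.2 : ℂ × ℂ).1 * A p.1 = (p.2 : ℂ × ℂ).2 * B p.1} with hsh
    have hclosed : ∀ t : Set (T × (ℂ × ℂ)), IsClosed t → IsClosed (sh t) := by
      intro t ht
      apply isClosedMap_fst_of_compactSpace
      apply IsClosed.inter
      · exact ht.preimage (by fun_prop)
      · exact isClosed_eq (by fun_prop) (by fun_prop)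
    have hfib : ∀ s : T, IsPreconnected ((fun v : ℂ × ℂ => (s, v)) ''
        {v : ℂ × ℂ | v ≠ 0 ∧ v.1 * A s = v.2 * B s}) := fun s =>
      (fibre_preconnected (A s) (B s)).image _ (by fun_prop)
    have hnorm : ∀ v : ℂ × ℂ, ∀ a b : ℂ, v ≠ 0 → v.1 * a = v.2 * b →
        ((‖v‖⁻¹ : ℝ) • v) ∈ K ∧ ((‖v‖⁻¹ : ℝ) • v) ≠ 0 ∧
        ((‖v‖⁻¹ : ℝ) • v).1 * a = ((‖v‖⁻¹ : ℝ) • v).2 * b := by
      intro v a b hv h
      refine ⟨?_, ?_, ?_⟩
      · rw [hK, mem_sphere_zero_iff_norm, norm_smul, norm_inv, norm_norm,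
          inv_mul_cancel₀ (norm_ne_zero_iff.2 hv)]
      · exact smul_ne_zero (inv_ne_zero (norm_ne_zero_iff.2 hv)) hv
      · simp only [Prod.smul_fst, Prod.smul_snd, Complex.real_smul]
        rw [mul_assoc, h, mul_assoc]
    have hKne : ∀ v ∈ K, v ≠ 0 := by
      rintro v hv rfl
      simp [hK] at hv
    rw [isPreconnected_closed_iff]
    rintro t t' ht ht' hcov ⟨⟨s, v⟩, ⟨hs, hv, hvE⟩, hvt⟩ ⟨⟨s', v'⟩, ⟨hs', hv', hvE'⟩, hvt'⟩
    simp only at hs hv hvE hs' hv' hvE'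
    have hfib' : ∀ s ∈ S, (∃ v : ℂ × ℂ, v ≠ 0 ∧ v.1 * A s = v.2 * B s ∧ (s, v) ∈ t) →
        (∃ v : ℂ × ℂ, v ≠ 0 ∧ v.1 * A s = v.2 * B s ∧ (s, v) ∈ t') →
        ({p : T × (ℂ × ℂ) | p.1 ∈ S ∧ p.2 ≠ 0 ∧ p.2.1 * A p.1 = p.2.2 * B p.1} ∩
          (t ∩ t')).Nonempty := by
      rintro s hs ⟨w, hw, hwE, hwt⟩ ⟨w', hw', hwE', hwt'⟩
      have h := isPreconnected_closed_iff.1 (hfib s) t t' ht ht' (by
        rintro _ ⟨u, ⟨hu, huE⟩, rfl⟩
        exact hcov ⟨hs, hu, huE⟩) ⟨(s, w), ⟨w, ⟨hw, hwE⟩, rfl⟩, hwt⟩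
        ⟨(s, w'), ⟨w', ⟨hw', hwE'⟩, rfl⟩, hwt'⟩
      obtain ⟨_, ⟨u, ⟨hu, huE⟩, rfl⟩, hut⟩ := h
      exact ⟨(s, u), ⟨hs, hu, huE⟩, hut⟩
    by_contra hcon
    have hins : ∀ s ∈ S, ∀ v : ℂ × ℂ, v ≠ 0 → v.1 * A s = v.2 * B s → (s, v) ∈ t → s ∈ sh t := by
      intro s hs v hv hvE hvt
      obtain ⟨h1, h2, h3⟩ := hnorm v _ _ hv hvE
      rcases hcov (show (s, (‖v‖⁻¹ : ℝ) • v) ∈ _ from ⟨hs, h2, h3⟩) with h | h
      · exact ⟨(s, ⟨_, h1⟩), ⟨h, h3⟩, rfl⟩
      · exact absurd (hfib' s hs ⟨v, hv, hvE, hvt⟩ ⟨_, h2, h3, h⟩) hcon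
    have hins' : ∀ s ∈ S, ∀ v : ℂ × ℂ, v ≠ 0 → v.1 * A s = v.2 * B s → (s, v) ∈ t' →
        s ∈ sh t' := by
      intro s hs v hv hvE hvt
      obtain ⟨h1, h2, h3⟩ := hnorm v _ _ hv hvE
      rcases hcov (show (s, (‖v‖⁻¹ : ℝ) • v) ∈ _ from ⟨hs, h2, h3⟩) with h | h
      · exact absurd (hfib' s hs ⟨_, h2, h3, h⟩ ⟨v, hv, hvE, hvt⟩) hcon
      · exact ⟨(s, ⟨_, h1⟩), ⟨h, h3⟩, rfl⟩
    have hSc := isPreconnected_closed_iff.1 hS.isPreconnected (sh t) (sh t') (hclosed t ht)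
      (hclosed t' ht') (by
        intro s hs
        obtain ⟨v, hv, hvE⟩ : ∃ v : ℂ × ℂ, v ≠ 0 ∧ v.1 * A s = v.2 * B s := by
          by_cases hab : (B s, A s) = (0 : ℂ × ℂ)
          · refine ⟨(1, 0), by simp, ?_⟩
            simp only [Prod.mk_eq_zero] at hab
            simp [hab.1, hab.2]
          · exact ⟨(B s, A s), hab, by simp [mul_comm]⟩
        rcases hcov (show (s, v) ∈ _ from ⟨hs, hv, hvE⟩) with h | h
        · exact Or.inl (hins s hs v hv hvE h)
        · exact Or.inr (hins' s hs v hv hvE h))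
      ⟨s, hs, hins s hs v hv hvE hvt⟩ ⟨s', hs', hins' s' hs' v' hv' hvE' hvt'⟩
    obtain ⟨s, hs, ⟨⟨_, w⟩, ⟨h1, h2⟩, rfl⟩, ⟨⟨s1, w'⟩, ⟨h3, h4⟩, h5⟩⟩ := hSc
    simp only at h5 hs h1 h2 h3 h4
    subst h5
    exact hcon (hfib' _ hs ⟨w, hKne _ w.2, h2, h1⟩ ⟨w', hKne _ w'.2, h4, h3⟩)

/-- the coordinates of the tower -/
abbrev T0 : Type := (ℂ × ℂ) × (ℂ × ℂ)

theorem surface_connected : IsConnected {x : Coord 3 → ℂ | IsPoint x ∧
    ∀ j, eval x ((![F1, F2, F3] : Fin 3 → MvPolynomial (Coord 3) ℂ) j) = 0} := by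
  have h0 : IsConnected ({v : ℂ × ℂ | v ≠ 0} ×ˢ {v : ℂ × ℂ | v ≠ 0} : Set T0) :=
    compl_zero_connected.prod compl_zero_connected
  have h1 := step h0 (A := fun s : T0 => s.2.1 * s.1.1 * s.1.2)
    (B := fun s : T0 => s.2.2 * (s.1.1 ^ 2 - s.1.2 ^ 2)) (by fun_prop) (by fun_prop)
  have h2 := step h1 (A := fun s : T0 × (ℂ × ℂ) => s.2.1 * s.1.2.2)
    (B := fun s : T0 × (ℂ × ℂ) => s.2.2 * s.1.2.1) (by fun_prop) (by fun_prop)
  have h3 := step h2
    (A := fun s : (T0 × (ℂ × ℂ)) × (ℂ × ℂ) => (2 * s.2.1 ^ 2 + s.2.2 ^ 2) * s.1.1.2.2)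
    (B := fun s : (T0 × (ℂ × ℂ)) × (ℂ × ℂ) => (s.2.1 ^ 2 - s.2.2 ^ 2) * s.1.1.2.1)
    (by fun_prop) (by fun_prop)
  set Φ : ((T0 × (ℂ × ℂ)) × (ℂ × ℂ)) × (ℂ × ℂ) → Coord 3 → ℂ := fun s a =>
    (if a.2 = 0 then ![s.1.1.1.1.1, s.1.1.1.2.1, s.1.1.2.1, s.1.2.1, s.2.1] a.1
      else ![s.1.1.1.1.2, s.1.1.1.2.2, s.1.1.2.2, s.1.2.2, s.2.2] a.1) with hΦ
  have hΦc : Continuous Φ := by
    apply continuous_pi
    rintro ⟨i, j⟩
    fin_cases i <;> fin_cases j <;> simp only [hΦ] <;> simp <;> fun_prop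
  have himg := h3.image Φ hΦc.continuousOn
  convert himg using 1
  ext x
  simp only [Set.mem_ofPred_eq, Set.mem_image]
  constructor
  · rintro ⟨hx, he⟩
    have e1 := he 0
    have e2 := he 1
    have e3 := he 2
    simp [F1, F2, F3] at e1 e2 e3
    have hne : ∀ i : Fin 5, (x (i, 0), x (i, 1)) ≠ (0 : ℂ × ℂ) := by
      intro i h
      simp only [Prod.mk_eq_zero] at h
      rcases hx i with h' | h'
      · exact h' h.1
      · exact h' h.2
    refine ⟨(((((x (0, 0), x (0, 1)), (x (1, 0), x (1, 1))), (x (2, 0), x (2, 1))),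
      (x (3, 0), x (3, 1))), (x (4, 0), x (4, 1))), ?_, ?_⟩
    · refine ⟨⟨⟨⟨hne 0, hne 1⟩, hne 2, ?_⟩, hne 3, ?_⟩, hne 4, ?_⟩
      · simp only
        linear_combination e1
      · simp only
        linear_combination e2
      · simp only
        linear_combination e3
    · funext ⟨i, j⟩
      fin_cases i <;> fin_cases j <;> simp [hΦ]
  · rintro ⟨s, ⟨⟨⟨⟨hx, hy⟩, hr, er⟩, hu, eu⟩, hv, ev⟩, rfl⟩
    have hne : ∀ v : ℂ × ℂ, v ≠ 0 → v.1 ≠ 0 ∨ v.2 ≠ 0 := by
      intro v hv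
      by_contra h
      push Not at h
      exact hv (Prod.ext h.1 h.2)
    constructor
    · intro i
      fin_cases i
      · exact hne _ hx
      · exact hne _ hy
      · exact hne _ hr
      · exact hne _ hu
      · exact hne _ hv
    · intro j
      fin_cases j
      · simp [F1, hΦ]
        linear_combination er
      · simp [F2, hΦ]
        linear_combination eu
      · simp [F3, hΦ]
        linear_combination ev

/-- The rational surface. -/
noncomputable def surf : CISurface 3 where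
  F := ![F1, F2, F3]
  d := ![![2, 1, 1, 0, 0], ![0, 1, 1, 1, 0], ![0, 1, 0, 2, 1]]
  homogeneous := by
    intro j
    fin_cases j
    · exact F1_homogeneous
    · exact F2_homogeneous
    · exact F3_homogeneous
  smooth := surface_smooth
  connected := surface_connected

theorem surf_isRational : surf.IsRational := by
  refine ⟨fun a => if a.2 = 0 then ![X 0, X 1, X 0 ^ 2 - 1, X 0 * X 1 ^ 2,
      X 1 * ((X 0 * X 1 ^ 2) ^ 2 - (X 0 ^ 2 - 1) ^ 2)] a.1
    else ![1, 1, X 0 * X 1, X 0 ^ 2 - 1, 2 * (X 0 * X 1 ^ 2) ^ 2 + (X 0 ^ 2 - 1) ^ 2] a.1,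
    X 0 * X 1 * (2 * (X 0 * X 1 ^ 2) ^ 2 + (X 0 ^ 2 - 1) ^ 2), ?_, ?_, ?_⟩
  · intro h
    have := congrArg (eval (fun _ => (1 : ℂ))) h
    simp at this
  · intro s hs
    simp only [map_mul, map_add, map_pow, map_sub, eval_X, map_one, map_ofNat] at hs
    have h1 := left_ne_zero_of_mul hs
    have h2 := right_ne_zero_of_mul hs
    have h3 := left_ne_zero_of_mul h1
    have h4 := right_ne_zero_of_mul h1
    constructor
    · intro i
      fin_cases i
      · right; simp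
      · right; simp
      · right; simp [h3, h4]
      · left; simp [h3, h4]
      · right; simpa using h2
    · intro j
      fin_cases j
      · simp [surf, F1]
        ring
      · simp [surf, F2]
        ring
      · simp [surf, F3]
        ring
  · intro s s' _ _ h
    have h0 := h 0
    have h1 := h 1
    simp at h0 h1
    funext i
    fin_cases i
    · exact h0
    · exact h1

end MP79ab39.Rat
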