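import Pool.Agent.Lib_MP_79ab39_ag.EllipticSum
import Pool.Agent.Lib_MP_79ab39_ag.Surj
import Pool.Agent.Lib_MP_79ab39_ag.Curve
import Pool.Agent.Lib_MP_79ab39_ag.Degree

/-! Even elliptic functions are rational functions of `℘`; their degrees. -/

open Complex PeriodPair Filter Topology

namespace MP79ab39.Rat

open MP79ab39

/-- `p(℘)` -/
noncomputable def PP (p : Polynomial ℂ) (z : ℂ) : ℂ := p.eval (℘[Lq] z)

lemma PP_meromorphic (p : Polynomial ℂ) : Meromorphic (PP p) := by
  intro z
  have h := Lq.meromorphic_weierstrassP z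
  show MeromorphicAt (fun z => p.eval (℘[Lq] z)) z
  induction p using Polynomial.induction_on' with
  | add p q hp hq => simp only [Polynomial.eval_add]; exact hp.add hq
  | monomial n a => simp only [Polynomial.eval_monomial]; fun_prop

lemma PP_analyticAt (p : Polynomial ℂ) {z : ℂ} (hz : z ∉ Lq.lattice) : AnalyticAt ℂ (PP p) z := by
  have h : AnalyticAt ℂ ℘[Lq] z := Lq.analyticOnNhd_weierstrassP z hz
  show AnalyticAt ℂ (fun z => p.eval (℘[Lq] z)) z
  induction p using Polynomial.induction_on' with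
  | add p q hp hq => simp only [Polynomial.eval_add]; exact hp.add hq
  | monomial n a => simp only [Polynomial.eval_monomial]; fun_prop

lemma PP_periodic (p : Polynomial ℂ) {l : ℂ} (hl : l ∈ Lq.lattice) (z : ℂ) :
    PP p (z + l) = PP p z := by
  unfold PP
  rw [P_add_mem hl]

lemma PP_neg (p : Polynomial ℂ) (z : ℂ) : PP p (-z) = PP p z := by
  unfold PP
  rw [Lq.weierstrassP_neg]

lemma PP_mul (p q : Polynomial ℂ) (z : ℂ) : PP (p * q) z = PP p z * PP q z := by
  unfold PP
  rw [Polynomial.eval_mul]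

lemma order_PP_nonneg (p : Polynomial ℂ) {z : ℂ} (hz : z ∉ Lq.lattice) :
    0 ≤ meromorphicOrderAt (PP p) z := (PP_analyticAt p hz).meromorphicOrderAt_nonneg

lemma order_PP_eq_zero (p : Polynomial ℂ) {z : ℂ} (hz : z ∉ Lq.lattice) (h : PP p z ≠ 0) :
    meromorphicOrderAt (PP p) z = 0 := by
  rw [(PP_analyticAt p hz).meromorphicOrderAt_eq, (PP_analyticAt p hz).analyticOrderAt_eq_zero.mpr h]
  rfl

lemma order_PP_mem {p : Polynomial ℂ} (hp : p ≠ 0) {z : ℂ} (hz : z ∈ Lq.lattice) :
    meromorphicOrderAt (PP p) z = ((-2 * (p.natDegree : ℤ) : ℤ) : WithTop ℤ) := by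
  obtain ⟨n, hn⟩ : ∃ n, n = p.natDegree := ⟨_, rfl⟩
  rw [← hn]
  induction n generalizing p with
  | zero =>
    obtain ⟨a, rfl⟩ : ∃ a, p = Polynomial.C a :=
      ⟨_, Polynomial.eq_C_of_natDegree_eq_zero hn.symm⟩
    have ha : a ≠ 0 := by
      rintro rfl
      simp at hp
    have : PP (Polynomial.C a) = fun _ => a := by
      funext w; simp [PP]
    classical
    rw [this, meromorphicOrderAt_const, if_neg ha]
    rfl
  | succ k ih =>
    have hd : p.divX.natDegree = k := by
      rw [Polynomial.natDegree_divX_eq_natDegree_tsub_one, ← hn]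
      rfl
    have hd0 : p.divX ≠ 0 := by
      intro h
      have h1 := Polynomial.divX_mul_X_add p
      rw [h, zero_mul, zero_add] at h1
      have h2 : p.natDegree = 0 := by rw [← h1, Polynomial.natDegree_C]
      omega
    have h1 := ih hd0 hd.symm
    have h2 : PP p = fun w => (PP p.divX w * ℘[Lq] w) + p.coeff 0 := by
      funext w
      conv_lhs => rw [← Polynomial.divX_mul_X_add p]
      simp [PP]
    have h3 : meromorphicOrderAt (fun w => PP p.divX w * ℘[Lq] w) z =
        ((-2 * ((k + 1 : ℕ) : ℤ) : ℤ) : WithTop ℤ) := by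
      have h4 := meromorphicOrderAt_mul (PP_meromorphic p.divX z) (Lq.meromorphic_weierstrassP z)
      have h5 : (PP p.divX * ℘[Lq]) = fun w => PP p.divX w * ℘[Lq] w := rfl
      rw [← h5, h4, h1, Lq.order_weierstrassP z hz]
      have : ((-2 : WithTop ℤ)) = ((-2 : ℤ) : WithTop ℤ) := rfl
      rw [this, ← WithTop.coe_add]
      congr 1
      push_cast
      ring
    rw [h2, RBound.order_add_const, h3]
    rw [h3]
    have : (-2 * ((k + 1 : ℕ) : ℤ) : ℤ) < 0 := by push_cast; linarith
    exact_mod_cast this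

lemma order_PP_ne_top {p : Polynomial ℂ} (hp : p ≠ 0) (z : ℂ) :
    meromorphicOrderAt (PP p) z ≠ ⊤ := by
  apply order_ne_top_everywhere (PP_meromorphic p)
  exact ⟨0, by rw [order_PP_mem hp (zero_mem _)]; exact WithTop.coe_ne_top⟩

lemma PP_eventually_ne {p : Polynomial ℂ} (hp : p ≠ 0) (z : ℂ) : ∀ᶠ w in 𝓝[≠] z, PP p w ≠ 0 :=
  (meromorphicOrderAt_ne_top_iff_eventually_ne_zero (PP_meromorphic p z)).1 (order_PP_ne_top hp z)

/-- a polynomial which vanishes at `℘` near a point is zero -/
lemma eq_zero_of_eventually {p : Polynomial ℂ} {z : ℂ} (h : ∀ᶠ w in 𝓝[≠] z, PP p w = 0) :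
    p = 0 := by
  by_contra hp
  exact order_PP_ne_top hp z (meromorphicOrderAt_eq_top_iff.2 h)

/-- an even function has even order at `0` -/
lemma even_order {f : ℂ → ℂ} (hf : MeromorphicAt f 0) (heven : ∀ z, f (-z) = f z) {n : ℤ}
    (hn : meromorphicOrderAt f 0 = n) : Even n := by
  obtain ⟨g, hg, hg0, hfg⟩ := (meromorphicOrderAt_eq_int_iff hf).1 hn
  by_contra hodd
  rw [Int.not_even_iff_odd] at hodd
  have hneg : Tendsto (fun t : ℂ => -t) (𝓝[≠] (0 : ℂ)) (𝓝[≠] (0 : ℂ)) := by
    apply tendsto_nhdsWithin_of_tendsto_nhds_of_eventually_within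
    · have h : Continuous (fun t : ℂ => -t) := by fun_prop
      have h3 := (h.tendsto 0).mono_left (nhdsWithin_le_nhds (s := {0}ᶜ))
      simpa using h3
    · filter_upwards [self_mem_nhdsWithin] with t ht
      have ht' : t ≠ 0 := ht
      show -t ≠ 0
      exact neg_ne_zero.2 ht'
  have h1 := hneg.eventually hfg
  have h2 : (fun t => g (-t)) =ᶠ[𝓝[≠] (0 : ℂ)] fun t => - g t := by
    filter_upwards [h1, hfg, self_mem_nhdsWithin] with t h1 h2 ht
    have ht' : t ≠ 0 := ht
    rw [heven, h2, sub_zero, sub_zero, hodd.neg_zpow, smul_eq_mul, smul_eq_mul] at h1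
    have h4 : t ^ n ≠ 0 := zpow_ne_zero n ht'
    apply mul_left_cancel₀ h4
    linear_combination h1
  have hgc : Tendsto g (𝓝[≠] (0 : ℂ)) (𝓝 (g 0)) :=
    hg.continuousAt.tendsto.mono_left nhdsWithin_le_nhds
  have h3 : Tendsto (fun t => g (-t)) (𝓝[≠] (0 : ℂ)) (𝓝 (g 0)) := hgc.comp hneg
  have h4 : Tendsto (fun t => g (-t)) (𝓝[≠] (0 : ℂ)) (𝓝 (- g 0)) := hgc.neg.congr' h2.symm
  have h5 := tendsto_nhds_unique h3 h4
  apply hg0
  linear_combination h5 / 2

lemma order_add_nonneg {f g : ℂ → ℂ} {z : ℂ} (hf : MeromorphicAt f z) (hg : MeromorphicAt g z)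
    (h1 : 0 ≤ meromorphicOrderAt f z) (h2 : 0 ≤ meromorphicOrderAt g z) :
    0 ≤ meromorphicOrderAt (f + g) z :=
  le_trans (le_min h1 h2) (meromorphicOrderAt_add hf hg)

/-- an even elliptic function without poles off the lattice is a polynomial in `℘` -/
theorem exists_polynomial (n : ℕ) : ∀ (H : ℂ → ℂ), Meromorphic H →
    (∀ l ∈ Lq.lattice, ∀ z, H (z + l) = H z) → (∀ z, H (-z) = H z) →
    (∀ z ∉ Lq.lattice, 0 ≤ meromorphicOrderAt H z) →
    ((-(2 * n : ℤ) : ℤ) : WithTop ℤ) ≤ meromorphicOrderAt H 0 →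
    ∃ p : Polynomial ℂ, ∀ z, ∀ᶠ w in 𝓝[≠] z, H w = PP p w := by
  induction n with
  | zero =>
    intro H hH hper heven hnn h0
    have h0' : 0 ≤ meromorphicOrderAt H 0 := by simpa using h0
    obtain ⟨c, hc⟩ := (tendsto_nhds_iff_meromorphicOrderAt_nonneg (hH 0)).2 h0'
    have hm : Meromorphic (fun w => H w - c) := by
      intro z
      have := hH z
      fun_prop
    have hper' : ∀ l ∈ Lq.lattice, ∀ z, (fun w => H w - c) (z + l) = (fun w => H w - c) z := by
      intro l hl z
      simp only [hper l hl z]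
    have hall : ∀ z, 0 ≤ meromorphicOrderAt H z := by
      intro z
      by_cases hz : z ∈ Lq.lattice
      · have := order_periodic hper hz 0
        rw [zero_add] at this
        rw [this]
        exact h0'
      · exact hnn z hz
    have hnn' : ∀ z, 0 ≤ meromorphicOrderAt (fun w => H w - c) z := by
      intro z
      have e : (fun w => H w - c) = H + fun _ => -c := by
        funext w; simp [sub_eq_add_neg]
      rw [e]
      exact order_add_nonneg (hH z) (MeromorphicAt.const _ _) (hall z)
        (AnalyticAt.meromorphicOrderAt_nonneg analyticAt_const)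
    have hpos : 0 < meromorphicOrderAt (fun w => H w - c) 0 := by
      rw [← tendsto_zero_iff_meromorphicOrderAt_pos (hm 0)]
      have := hc.sub_const c
      simpa using this
    have htop := elliptic_liouville Lq hm hper' hnn' hpos
    refine ⟨Polynomial.C c, fun z => ?_⟩
    have hz : meromorphicOrderAt (fun w => H w - c) z = ⊤ := by
      by_contra h
      exact order_ne_top_everywhere hm ⟨z, h⟩ 0 htop
    rw [meromorphicOrderAt_eq_top_iff] at hz
    filter_upwards [hz] with w hw
    rw [PP, Polynomial.eval_C]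
    exact sub_eq_zero.1 hw
  | succ n ih =>
    intro H hH hper heven hnn h0
    -- the leading coefficient
    have hid : MeromorphicAt (fun w : ℂ => w ^ (2 * (n + 1))) 0 := by fun_prop
    have hido : meromorphicOrderAt (fun w : ℂ => w ^ (2 * (n + 1))) 0 =
        ((2 * (n + 1) : ℤ) : WithTop ℤ) := by
      have e : (fun w : ℂ => w ^ (2 * (n + 1))) = (fun w : ℂ => (w - 0)) ^ (2 * (n + 1)) := by
        funext w; simp
      rw [e, meromorphicOrderAt_pow (by fun_prop), meromorphicOrderAt_id_sub_const, mul_one]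
      norm_cast
    have hmul : ∀ G : ℂ → ℂ, MeromorphicAt G 0 →
        meromorphicOrderAt (fun w => w ^ (2 * (n + 1)) * G w) 0 =
          ((2 * (n + 1) : ℤ) : WithTop ℤ) + meromorphicOrderAt G 0 := by
      intro G hG
      have := meromorphicOrderAt_mul hid hG
      rw [hido] at this
      exact this
    have h1 : 0 ≤ meromorphicOrderAt (fun w => w ^ (2 * (n + 1)) * H w) 0 := by
      rw [hmul H (hH 0)]
      have h2 := add_le_add_right h0 ((2 * (n + 1) : ℤ) : WithTop ℤ)
      rw [← WithTop.coe_add] at h2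
      have e : (2 * (n + 1) : ℤ) + (-(2 * ((n + 1 : ℕ) : ℤ))) = 0 := by push_cast; ring
      rw [e] at h2
      exact h2
    have hm1 : MeromorphicAt (fun w => w ^ (2 * (n + 1)) * H w) 0 := by
      have := hH 0
      fun_prop
    obtain ⟨c, hc⟩ := (tendsto_nhds_iff_meromorphicOrderAt_nonneg hm1).2 h1
    set H1 : ℂ → ℂ := fun w => H w - c * ℘[Lq] w ^ (n + 1) with hH1
    have hm : Meromorphic H1 := by
      intro z
      have h1 := hH z
      have h2 := Lq.meromorphic_weierstrassP z
      rw [hH1]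
      fun_prop
    have hper1 : ∀ l ∈ Lq.lattice, ∀ z, H1 (z + l) = H1 z := by
      intro l hl z
      simp only [hH1, hper l hl z, P_add_mem hl]
    have heven1 : ∀ z, H1 (-z) = H1 z := by
      intro z
      simp only [hH1, heven z, Lq.weierstrassP_neg]
    have hnn1 : ∀ z ∉ Lq.lattice, 0 ≤ meromorphicOrderAt H1 z := by
      intro z hz
      have e : H1 = H + fun w => -c * ℘[Lq] w ^ (n + 1) := by
        funext w; simp [hH1, sub_eq_add_neg]
      have ha : AnalyticAt ℂ (fun w => -c * ℘[Lq] w ^ (n + 1)) z := by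
        have := Lq.analyticOnNhd_weierstrassP z hz
        fun_prop
      rw [e]
      exact order_add_nonneg (hH z) ha.meromorphicAt (hnn z hz) ha.meromorphicOrderAt_nonneg
    have hlim : Tendsto (fun w => w ^ (2 * (n + 1)) * H1 w) (𝓝[≠] (0 : ℂ)) (𝓝 0) := by
      have h2 := hc.sub ((tendsto_sq_mul_P.pow (n + 1)).const_mul c)
      rw [one_pow, mul_one, sub_self] at h2
      refine h2.congr fun w => ?_
      simp only [hH1]
      rw [mul_pow, ← pow_mul]
      ring
    have hpos : 0 < meromorphicOrderAt (fun w => w ^ (2 * (n + 1)) * H1 w) 0 := by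
      rw [← tendsto_zero_iff_meromorphicOrderAt_pos]
      · exact hlim
      · have := hm 0
        fun_prop
    rw [hmul H1 (hm 0)] at hpos
    have hord : ((-(2 * n : ℤ) : ℤ) : WithTop ℤ) ≤ meromorphicOrderAt H1 0 := by
      by_cases htop : meromorphicOrderAt H1 0 = ⊤
      · rw [htop]; exact le_top
      · obtain ⟨k, hk⟩ := WithTop.ne_top_iff_exists.1 htop
        rw [← hk, ← WithTop.coe_add] at hpos
        have h3 : (0 : ℤ) < 2 * (n + 1) + k := by exact_mod_cast hpos
        obtain ⟨j, hj⟩ := even_order (hm 0) heven1 hk.symm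
        rw [← hk]
        have : -(2 * n : ℤ) ≤ k := by omega
        exact_mod_cast this
    obtain ⟨p, hp⟩ := ih H1 hm hper1 heven1 hnn1 hord
    refine ⟨p + Polynomial.C c * Polynomial.X ^ (n + 1), fun z => ?_⟩
    filter_upwards [hp z] with w hw
    have e : PP (p + Polynomial.C c * Polynomial.X ^ (n + 1)) w =
        PP p w + c * ℘[Lq] w ^ (n + 1) := by
      simp [PP]
    rw [e, ← hw]
    simp [hH1]

/-- an even elliptic function is a quotient of polynomials in `℘` -/
theorem exists_ratio {F : ℂ → ℂ} (hF : Meromorphic F)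
    (hper : ∀ l ∈ Lq.lattice, ∀ z, F (z + l) = F z) (heven : ∀ z, F (-z) = F z) :
    ∃ p q : Polynomial ℂ, IsCoprime p q ∧ q ≠ 0 ∧
      ∀ z, ∀ᶠ w in 𝓝[≠] z, F w * PP q w = PP p w := by
  classical
  have hfin := finite_ord Lq hF
  set T : Finset ℂ := hfin.toFinset.filter (fun a => a ∉ Lq.lattice) with hT
  set k : ℂ → ℕ := fun a => (-(meromorphicOrderAt F a).untop₀).toNat with hk
  set q : Polynomial ℂ := ∏ a ∈ T, (Polynomial.X - Polynomial.C (℘[Lq] a)) ^ k a with hq
  have hq0 : q ≠ 0 := by
    rw [hq, Finset.prod_ne_zero_iff]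
    intro a _
    exact pow_ne_zero _ (Polynomial.X_sub_C_ne_zero _)
  set H : ℂ → ℂ := fun w => F w * PP q w with hH
  have hHm : Meromorphic H := fun z => (hF z).mul (PP_meromorphic q z)
  have hHper : ∀ l ∈ Lq.lattice, ∀ z, H (z + l) = H z := by
    intro l hl z
    simp only [hH, hper l hl z, PP_periodic q hl]
  have hHeven : ∀ z, H (-z) = H z := by
    intro z
    simp only [hH, heven z, PP_neg]
  have hHord : ∀ z, meromorphicOrderAt H z = meromorphicOrderAt F z + meromorphicOrderAt (PP q) z :=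
    fun z => meromorphicOrderAt_mul (hF z) (PP_meromorphic q z)
  have hnn : ∀ z ∉ Lq.lattice, 0 ≤ meromorphicOrderAt H z := by
    intro z hz
    rw [hHord]
    by_cases hneg : meromorphicOrderAt F z < 0
    · obtain ⟨a, ha, haz⟩ := exists_rep Lq z
      have h1 : meromorphicOrderAt F z = meromorphicOrderAt F a := by
        have := order_periodic hper haz a
        rwa [add_sub_cancel] at this
      have h2 : ℘[Lq] z = ℘[Lq] a := P_eq_of_sub_mem haz
      have haL : a ∉ Lq.lattice := by
        intro h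
        apply hz
        have := add_mem haz h
        rwa [sub_add_cancel] at this
      obtain ⟨j, hj⟩ := WithTop.ne_top_iff_exists.1 (ne_top_of_lt hneg)
      have hj0 : j < 0 := by
        rw [← hj] at hneg
        exact_mod_cast hneg
      have haj : (meromorphicOrderAt F a).untop₀ = j := by
        rw [← h1, ← hj]; rfl
      have haT : a ∈ T := by
        rw [hT, Finset.mem_filter, Set.Finite.mem_toFinset]
        refine ⟨⟨ha, ?_⟩, haL⟩
        rw [haj]; omega
      have hka : (k a : ℤ) = -j := by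
        simp only [hk, haj]
        omega
      obtain ⟨q', hq'⟩ := Finset.dvd_prod_of_mem
        (fun a => (Polynomial.X - Polynomial.C (℘[Lq] a)) ^ k a) haT
      have hPq : PP q = (fun w => (℘[Lq] w - ℘[Lq] a) ^ k a) * PP q' := by
        funext w
        rw [hq, hq', PP_mul]
        simp [PP]
      have hb : MeromorphicAt (fun w => ℘[Lq] w - ℘[Lq] a) z := by
        have := Lq.meromorphic_weierstrassP z
        fun_prop
      have hbo : ∃ i : ℤ, 1 ≤ i ∧ meromorphicOrderAt (fun w => ℘[Lq] w - ℘[Lq] a) z = i := by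
        have h3 := order_P_sub Lq (a := a) (z := z) haL
        rw [if_neg hz, if_pos haz] at h3
        refine ⟨_, ?_, h3⟩
        split_ifs <;> norm_num
      obtain ⟨i, hi1, hi⟩ := hbo
      have hpow : meromorphicOrderAt (fun w => (℘[Lq] w - ℘[Lq] a) ^ k a) z =
          ((k a * i : ℤ) : WithTop ℤ) := by
        have := fun_meromorphicOrderAt_pow hb (n := k a)
        rw [this, hi]
        norm_cast
      have h4 : meromorphicOrderAt (PP q) z =
          ((k a * i : ℤ) : WithTop ℤ) + meromorphicOrderAt (PP q') z := by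
        have hbp : MeromorphicAt (fun w => (℘[Lq] w - ℘[Lq] a) ^ k a) z := hb.pow _
        rw [hPq, meromorphicOrderAt_mul hbp (PP_meromorphic q' z), hpow]
      rw [h4, ← hj, ← add_assoc, ← WithTop.coe_add]
      have h5 : (0 : ℤ) ≤ j + k a * i := by
        rw [hka]; nlinarith
      have h6 : (0 : WithTop ℤ) ≤ ((j + k a * i : ℤ) : WithTop ℤ) := by exact_mod_cast h5
      exact add_nonneg h6 (order_PP_nonneg q' hz)
    · exact add_nonneg (not_lt.1 hneg) (order_PP_nonneg q hz)
  obtain ⟨n, hn⟩ : ∃ n : ℕ, ((-(2 * n : ℤ) : ℤ) : WithTop ℤ) ≤ meromorphicOrderAt H 0 := by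
    by_cases htop : meromorphicOrderAt H 0 = ⊤
    · exact ⟨0, by rw [htop]; exact le_top⟩
    · obtain ⟨i, hi⟩ := WithTop.ne_top_iff_exists.1 htop
      refine ⟨i.natAbs, ?_⟩
      rw [← hi]
      have : -(2 * (i.natAbs : ℤ)) ≤ i := by omega
      exact_mod_cast this
  obtain ⟨p, hp⟩ := exists_polynomial n H hHm hHper hHeven hnn hn
  -- divide by the greatest common divisor
  obtain ⟨p', hp'⟩ := EuclideanDomain.gcd_dvd_left p q
  obtain ⟨q', hq'⟩ := EuclideanDomain.gcd_dvd_right p q
  have hg0 : EuclideanDomain.gcd p q ≠ 0 := by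
    intro h
    rw [EuclideanDomain.gcd_eq_zero_iff] at h
    exact hq0 h.2
  have hcop : IsCoprime p' q' := by
    obtain ⟨a, b, hab⟩ : ∃ a b, EuclideanDomain.gcd p q = p * a + q * b :=
      ⟨_, _, EuclideanDomain.gcd_eq_gcd_ab p q⟩
    refine ⟨a, b, ?_⟩
    apply mul_left_cancel₀ hg0
    calc EuclideanDomain.gcd p q * (a * p' + b * q')
        = (EuclideanDomain.gcd p q * p') * a + (EuclideanDomain.gcd p q * q') * b := by ring
      _ = p * a + q * b := by rw [← hp', ← hq']
      _ = EuclideanDomain.gcd p q * 1 := by rw [mul_one, ← hab]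
  have hq'0 : q' ≠ 0 := by
    rintro rfl
    rw [mul_zero] at hq'
    exact hq0 hq'
  refine ⟨p', q', hcop, hq'0, fun z => ?_⟩
  filter_upwards [hp z, PP_eventually_ne hg0 z] with w hw hw'
  simp only [hH] at hw
  have e1 : PP p w = PP (EuclideanDomain.gcd p q) w * PP p' w := by rw [← PP_mul, ← hp']
  have e2 : PP q w = PP (EuclideanDomain.gcd p q) w * PP q' w := by rw [← PP_mul, ← hq']
  apply mul_left_cancel₀ hw'
  linear_combination hw + e1 - F w * e2

lemma para_eq_zero {z : ℂ} (hz : z ∈ parallelogram Lq) (h : z ∈ Lq.lattice) : z = 0 :=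
  rep_unique Lq hz (zero_mem_para Lq) (by rwa [sub_zero])

/-- the sum of the orders of `p(℘)` off `0` is `2 deg p` -/
lemma sum_order_PP {p : Polynomial ℂ} (hp : p ≠ 0) {S : Finset ℂ}
    (hS : ∀ z ∈ parallelogram Lq, z ≠ 0 → (meromorphicOrderAt (PP p) z).untop₀ ≠ 0 → z ∈ S)
    (hS' : ∀ z ∈ S, z ∈ parallelogram Lq) (h0 : (0 : ℂ) ∉ S) :
    ∑ z ∈ S, (meromorphicOrderAt (PP p) z).untop₀ = 2 * p.natDegree := by
  classical
  have h1 := sum_orders_eq_zero Lq (PP_meromorphic p) (fun l hl z => PP_periodic p hl z)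
    ⟨0, order_PP_ne_top hp 0⟩
  have h2 : ∑ᶠ z ∈ parallelogram Lq, (meromorphicOrderAt (PP p) z).untop₀ =
      ∑ z ∈ insert 0 S, (meromorphicOrderAt (PP p) z).untop₀ := by
    apply finsum_mem_eq_sum_of_inter_support_eq
    ext z
    simp only [Set.mem_inter_iff, Function.mem_support, Finset.coe_insert, Set.mem_insert_iff,
      Finset.mem_coe]
    constructor
    · rintro ⟨h3, h4⟩
      by_cases hz : z = 0
      · exact ⟨Or.inl hz, h4⟩
      · exact ⟨Or.inr (hS z h3 hz h4), h4⟩
    · rintro ⟨h3 | h3, h4⟩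
      · rw [h3] at h4 ⊢
        exact ⟨zero_mem_para Lq, h4⟩
      · exact ⟨hS' z h3, h4⟩
  rw [h2, Finset.sum_insert h0, order_PP_mem hp (zero_mem _), WithTop.untop₀_coe] at h1
  linarith

/-- the degree of an even elliptic function `p(℘)/q(℘)` -/
theorem degree_ratio {F : ℂ → ℂ} (hF : Meromorphic F)
    {p q : Polynomial ℂ} (hp : p ≠ 0) (hq : q ≠ 0) (hcop : IsCoprime p q)
    (h : ∀ z, ∀ᶠ w in 𝓝[≠] z, F w * PP q w = PP p w) :
    degree Lq F = 2 * max p.natDegree q.natDegree := by
  classical
  have hord : ∀ z, (meromorphicOrderAt F z).untop₀ =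
      (meromorphicOrderAt (PP p) z).untop₀ - (meromorphicOrderAt (PP q) z).untop₀ := by
    intro z
    have h1 : meromorphicOrderAt (F * PP q) z = meromorphicOrderAt (PP p) z :=
      meromorphicOrderAt_congr (h z)
    rw [meromorphicOrderAt_mul (hF z) (PP_meromorphic q z)] at h1
    obtain ⟨a, ha⟩ := WithTop.ne_top_iff_exists.1 (order_PP_ne_top hp z)
    obtain ⟨b, hb⟩ := WithTop.ne_top_iff_exists.1 (order_PP_ne_top hq z)
    have hFt : meromorphicOrderAt F z ≠ ⊤ := by
      intro ht
      rw [ht, top_add, ← ha] at h1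
      exact WithTop.coe_ne_top h1.symm
    obtain ⟨c, hc⟩ := WithTop.ne_top_iff_exists.1 hFt
    rw [← ha, ← hb, ← hc, ← WithTop.coe_add] at h1
    have h2 : c + b = a := by exact_mod_cast h1
    rw [← ha, ← hb, ← hc, WithTop.untop₀_coe, WithTop.untop₀_coe, WithTop.untop₀_coe]
    omega
  have hfp := finite_ord Lq (PP_meromorphic p)
  have hfq := finite_ord Lq (PP_meromorphic q)
  set S : Finset ℂ := (hfp.toFinset ∪ hfq.toFinset).erase 0 with hS
  have hSp : ∀ z ∈ parallelogram Lq, z ≠ 0 → (meromorphicOrderAt (PP p) z).untop₀ ≠ 0 →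
      z ∈ S := by
    intro z hz hz0 hne
    rw [hS, Finset.mem_erase, Finset.mem_union, Set.Finite.mem_toFinset]
    exact ⟨hz0, Or.inl ⟨hz, hne⟩⟩
  have hSq : ∀ z ∈ parallelogram Lq, z ≠ 0 → (meromorphicOrderAt (PP q) z).untop₀ ≠ 0 →
      z ∈ S := by
    intro z hz hz0 hne
    rw [hS, Finset.mem_erase, Finset.mem_union, Set.Finite.mem_toFinset, Set.Finite.mem_toFinset]
    exact ⟨hz0, Or.inr ⟨hz, hne⟩⟩
  have hS' : ∀ z ∈ S, z ∈ parallelogram Lq := by
    intro z hz
    rw [hS, Finset.mem_erase, Finset.mem_union, Set.Finite.mem_toFinset,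
      Set.Finite.mem_toFinset] at hz
    rcases hz.2 with h | h
    · exact h.1
    · exact h.1
  have h0S : (0 : ℂ) ∉ S := by
    rw [hS]; exact Finset.notMem_erase _ _
  have hdeg : degree Lq F = ∑ z ∈ insert 0 S, zeroMult F z := by
    apply degree_eq_sum
    · intro z hz hne
      by_cases hz0 : z = 0
      · rw [hz0]; exact Finset.mem_insert_self _ _
      · apply Finset.mem_insert_of_mem
        by_cases hpz : (meromorphicOrderAt (PP p) z).untop₀ = 0
        · apply hSq z hz hz0
          intro hqz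
          apply hne
          unfold zeroMult
          rw [hord, hpz, hqz]
          rfl
        · exact hSp z hz hz0 hpz
    · intro z hz
      rw [Finset.mem_insert] at hz
      rcases hz with h | h
      · rw [h]; exact zero_mem_para Lq
      · exact hS' z h
  have hP := sum_order_PP hp hSp hS' h0S
  have hz0 : (zeroMult F 0 : ℤ) = ((2 * q.natDegree - 2 * p.natDegree : ℤ).toNat : ℤ) := by
    unfold zeroMult
    rw [hord, order_PP_mem hp (zero_mem _), order_PP_mem hq (zero_mem _), WithTop.untop₀_coe,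
      WithTop.untop₀_coe]
    congr 2
    ring
  have hloc : ∀ z ∈ S, (zeroMult F z : ℤ) = (meromorphicOrderAt (PP p) z).untop₀ := by
    intro z hz
    have hzL : z ∉ Lq.lattice := fun hl => h0S (by
      rwa [para_eq_zero (hS' z hz) hl] at hz)
    have hpn : 0 ≤ (meromorphicOrderAt (PP p) z).untop₀ := by
      obtain ⟨a, ha⟩ := WithTop.ne_top_iff_exists.1 (order_PP_ne_top hp z)
      have := order_PP_nonneg p hzL
      rw [← ha] at this ⊢
      rw [WithTop.untop₀_coe]
      exact_mod_cast this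
    have hqn : 0 ≤ (meromorphicOrderAt (PP q) z).untop₀ := by
      obtain ⟨a, ha⟩ := WithTop.ne_top_iff_exists.1 (order_PP_ne_top hq z)
      have := order_PP_nonneg q hzL
      rw [← ha] at this ⊢
      rw [WithTop.untop₀_coe]
      exact_mod_cast this
    have hor : (meromorphicOrderAt (PP p) z).untop₀ = 0 ∨
        (meromorphicOrderAt (PP q) z).untop₀ = 0 := by
      obtain ⟨a, b, hab⟩ := hcop
      by_cases hpz : PP p z = 0
      · right
        have hqz : PP q z ≠ 0 := by
          intro hqz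
          have := congrArg (fun r => PP r z) hab
          simp only [PP, Polynomial.eval_add, Polynomial.eval_mul, Polynomial.eval_one] at this
          unfold PP at hpz hqz
          rw [hpz, hqz] at this
          simp at this
        rw [order_PP_eq_zero q hzL hqz]
        rfl
      · left
        rw [order_PP_eq_zero p hzL hpz]
        rfl
    unfold zeroMult
    rw [hord]
    rcases hor with h | h <;> omega
  have hfinal : (degree Lq F : ℤ) =
      ((2 * q.natDegree - 2 * p.natDegree : ℤ).toNat : ℤ) + 2 * p.natDegree := by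
    rw [hdeg, Finset.sum_insert h0S, Nat.cast_add, hz0, Nat.cast_sum, Finset.sum_congr rfl hloc,
      hP]
  omega

end MP79ab39.Rat
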