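import Pool.Agent.Lib_MP_79ab39_r.FR
import Pool.Agent.Lib_MP_79ab39_ag.EllipticSum

/-! Orders of `ρ = (f⁴ - 1)/(2 f⁴ + 1)` and degrees. -/

open Complex PeriodPair Filter Topology

namespace MP79ab39.Rat

open MP79ab39 MP79ab39.RBound

lemma order_rho_eq (m : ℕ) (z : ℂ) :
    meromorphicOrderAt (rho m) z = meromorphicOrderAt (fun w => fR m w ^ 4 - 1) z -
      meromorphicOrderAt (fun w => 2 * fR m w ^ 4 + 1) z := by
  have hU := fR_meromorphic m z
  have h4 : MeromorphicAt (fun w => fR m w ^ 4 - 1) z := by fun_prop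
  have h6 : MeromorphicAt (fun w => 2 * fR m w ^ 4 + 1) z := by fun_prop
  have e : rho m = (fun w => fR m w ^ 4 - 1) / (fun w => 2 * fR m w ^ 4 + 1) := by
    funext w
    simp [rho]
  rw [e, meromorphicOrderAt_div h4 h6]

lemma order_f4_pole {m : ℕ} {z : ℂ} {k : ℤ} (hk : k < 0)
    (h : meromorphicOrderAt (fR m) z = k) :
    meromorphicOrderAt (fun w => fR m w ^ 4 - 1) z = ((4 * k : ℤ) : WithTop ℤ) := by
  have hU := fR_meromorphic m z
  have h1 : meromorphicOrderAt (fun w => fR m w ^ 4) z = ((4 * k : ℤ) : WithTop ℤ) := by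
    rw [fun_meromorphicOrderAt_pow hU, h]
    norm_cast
  have e : (fun w => fR m w ^ 4 - 1) = fun w => fR m w ^ 4 + (-1) := by
    funext w; ring
  rw [e, order_add_const, h1]
  rw [h1]
  have : 4 * k < 0 := by omega
  exact_mod_cast this

lemma order_2f4_pole {m : ℕ} {z : ℂ} {k : ℤ} (hk : k < 0)
    (h : meromorphicOrderAt (fR m) z = k) :
    meromorphicOrderAt (fun w => 2 * fR m w ^ 4 + 1) z = ((4 * k : ℤ) : WithTop ℤ) := by
  have hU := fR_meromorphic m z
  have h1 : meromorphicOrderAt (fun w => 2 * fR m w ^ 4) z = ((4 * k : ℤ) : WithTop ℤ) := by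
    have e : (fun w => 2 * fR m w ^ 4) = (fun _ => (2 : ℂ)) * (fun w => fR m w ^ 4) := rfl
    rw [e, meromorphicOrderAt_mul_of_ne_zero analyticAt_const (by norm_num),
      fun_meromorphicOrderAt_pow hU, h]
    norm_cast
  rw [order_add_const, h1]
  rw [h1]
  have : 4 * k < 0 := by omega
  exact_mod_cast this

/-- the point `1/2 - κ`, where `f` has a double pole -/
lemma order_fR_base {m : ℕ} (hm : Even m) (hm2 : 2 ≤ m) :
    meromorphicOrderAt (fR m) (1 / 2 - kk) = ((-2 : ℤ) : WithTop ℤ) := by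
  apply order_fR_at hm hm2
  left
  have : (1 / 2 - kk + kk - 1 / 2 : ℂ) = 0 := by ring
  rw [this]; exact zero_mem _

lemma f2_meromorphic (m : ℕ) : Meromorphic (fun w => 2 * fR m w ^ 4 + 1) := by
  intro z
  have := fR_meromorphic m z
  fun_prop

/-- `ord (2f⁴+1)` is never infinite -/
lemma order_2f4_ne_top {m : ℕ} (hm : Even m) (hm2 : 2 ≤ m) (z : ℂ) :
    meromorphicOrderAt (fun w => 2 * fR m w ^ 4 + 1) z ≠ ⊤ := by
  apply order_ne_top_everywhere (f2_meromorphic m)
  refine ⟨1 / 2 - kk, ?_⟩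
  rw [order_2f4_pole (by norm_num) (order_fR_base hm hm2)]
  exact WithTop.coe_ne_top

theorem order_rho {m : ℕ} (hm : Even m) (hm2 : 2 ≤ m) (z : ℂ) :
    (∃ k : ℤ, meromorphicOrderAt (rho m) z = k ∧ k ≤ 0) ∨
    (NR m * z ∈ Lq.lattice ∧ meromorphicOrderAt (fR m) z = 0 ∧
      meromorphicOrderAt (rho m) z = 1) := by
  have hU := fR_meromorphic m z
  have h4 : MeromorphicAt (fun w => fR m w ^ 4 - 1) z := by fun_prop
  have h6 : MeromorphicAt (fun w => 2 * fR m w ^ 4 + 1) z := by fun_prop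
  have hpole : ∀ k : ℤ, k < 0 → meromorphicOrderAt (fR m) z = k →
      (∃ k : ℤ, meromorphicOrderAt (rho m) z = k ∧ k ≤ 0) := by
    intro k hk h
    refine ⟨0, ?_, le_refl _⟩
    rw [order_rho_eq, order_f4_pole hk h, order_2f4_pole hk h]
    have : ((4 * k : ℤ) : WithTop ℤ) - ((4 * k : ℤ) : WithTop ℤ) = ((4 * k - 4 * k : ℤ) : WithTop ℤ) :=
      rfl
    rw [this, sub_self]
  have hzero : Tendsto (fR m) (𝓝[≠] z) (𝓝 0) →
      (∃ k : ℤ, meromorphicOrderAt (rho m) z = k ∧ k ≤ 0) := by
    intro ht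
    refine ⟨0, ?_, le_refl _⟩
    have h2 : meromorphicOrderAt (fun w => fR m w ^ 4 - 1) z = 0 :=
      order_of_tendsto h4 (c := 0 ^ 4 - 1) ((ht.pow 4).sub_const 1) (by norm_num)
    have h3 : meromorphicOrderAt (fun w => 2 * fR m w ^ 4 + 1) z = 0 :=
      order_of_tendsto h6 (c := 2 * 0 ^ 4 + 1) (((ht.pow 4).const_mul 2).add_const 1)
        (by norm_num)
    rw [order_rho_eq, h2, h3]
    rfl
  by_cases hz : 2 * (z + kk) ∈ Lq.lattice
  · left
    rcases two_mul_mem.1 hz with h | h | h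
    · -- a pole of `W(z+κ)`
      have ht := tendsto_fR_sq hm hm2 (Or.inl h)
      exact aux hm2 h4 h6 ht
    · have ht := tendsto_fR_sq hm hm2 (Or.inr h)
      exact aux hm2 h4 h6 ht
    · exact hpole (-2) (by norm_num) (order_fR_at hm hm2 h)
  · by_cases hmz : 2 * (m * z) ∈ Lq.lattice
    · left
      rcases curveAux_order_Wf_cases (m * z) with ⟨h1, _⟩ | ⟨h1, _⟩ | h1
      · have h2 : meromorphicOrderAt (fR m) z = ((-1 : ℤ) : WithTop ℤ) := by
          rw [order_fR (by omega), h1, order_Wf_other hz]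
          rfl
        exact hpole (-1) (by norm_num) h2
      · have h2 : meromorphicOrderAt (fR m) z = ((1 : ℤ) : WithTop ℤ) := by
          rw [order_fR (by omega), h1, order_Wf_other hz]
          rfl
        apply hzero
        apply tendsto_zero_of_meromorphicOrderAt_pos
        rw [h2]
        exact_mod_cast one_pos
      · exfalso
        rcases two_mul_mem.1 hmz with h | h | h
        · rw [order_Wf_pole (Or.inl h)] at h1
          exact absurd h1 (by decide)
        · rw [order_Wf_pole (Or.inr h)] at h1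
          exact absurd h1 (by decide)
        · rw [order_Wf_zero h] at h1
          exact absurd h1 (by decide)
    · -- the general case
      have h2L : ∀ {w : ℂ}, 2 * w ∉ Lq.lattice → w ∉ Lq.lattice ∧ w - hh ∉ Lq.lattice :=
        fun hw => ⟨fun h => hw (two_mul_mem.2 (Or.inl h)),
          fun h => hw (two_mul_mem.2 (Or.inr (Or.inl h)))⟩
      have hU1 : AnalyticAt ℂ (fR m) z := by
        have a1 : AnalyticAt ℂ (fun w : ℂ => Wf (m * w)) z :=
          (Wf_analyticAt (h2L hmz).1 (h2L hmz).2).fun_comp (g := Wf) (f := fun w : ℂ => m * w)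
            (by fun_prop)
        have a2 : AnalyticAt ℂ (fun w : ℂ => Wf (w + kk)) z :=
          (Wf_analyticAt (h2L hz).1 (h2L hz).2).fun_comp (g := Wf) (f := fun w : ℂ => w + kk)
            (by fun_prop)
        exact a1.div a2 (fun h => hz (Wf_eq_zero_iff.1 h))
      have hU0 : meromorphicOrderAt (fR m) z = 0 := by
        rw [order_fR (by omega), order_Wf_other hmz, order_Wf_other hz]
        rfl
      have hn6 : 0 ≤ meromorphicOrderAt (fun w => 2 * fR m w ^ 4 + 1) z :=
        AnalyticAt.meromorphicOrderAt_nonneg (by fun_prop)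
      have ht : Tendsto (fR m) (𝓝[≠] z) (𝓝 (fR m z)) :=
        hU1.continuousAt.tendsto.mono_left nhdsWithin_le_nhds
      by_cases hUz : fR m z ^ 4 = 1
      · right
        obtain ⟨h41, hNz⟩ := order_f4 hm hm2 hz hmz hUz
        refine ⟨hNz, hU0, ?_⟩
        have h3 : meromorphicOrderAt (fun w => 2 * fR m w ^ 4 + 1) z = 0 := by
          refine order_of_tendsto h6 (c := 2 * (fR m z) ^ 4 + 1)
            (((ht.pow 4).const_mul 2).add_const 1) ?_
          rw [hUz]; norm_num
        rw [order_rho_eq, h41, h3]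
        rfl
      · left
        have h40 : meromorphicOrderAt (fun w => fR m w ^ 4 - 1) z = 0 := by
          refine order_of_tendsto h4 (c := (fR m z) ^ 4 - 1) ((ht.pow 4).sub_const 1) ?_
          exact fun h => hUz (by linear_combination h)
        have hne := order_2f4_ne_top hm hm2 z
        obtain ⟨k, hk⟩ := WithTop.ne_top_iff_exists.1 hne
        rw [← hk] at hn6
        have hk0 : 0 ≤ k := by exact_mod_cast hn6
        refine ⟨-k, ?_, by omega⟩
        rw [order_rho_eq, h40, ← hk]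
        rw [zero_sub]
        rfl
where
  aux {m : ℕ} {z : ℂ} (hm2 : 2 ≤ m) (h4 : MeromorphicAt (fun w => fR m w ^ 4 - 1) z)
      (h6 : MeromorphicAt (fun w => 2 * fR m w ^ 4 + 1) z)
      (ht : Tendsto (fun w => fR m w ^ 2) (𝓝[≠] z) (𝓝 (1 / (m : ℂ) ^ 2))) :
      ∃ k : ℤ, meromorphicOrderAt (rho m) z = k ∧ k ≤ 0 := by
    have hm0 : (m : ℂ) ≠ 0 := by
      have : m ≠ 0 := by omega
      exact_mod_cast this
    refine ⟨0, ?_, le_refl _⟩
    have h2 : meromorphicOrderAt (fun w => fR m w ^ 4 - 1) z = 0 := by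
      refine order_of_tendsto h4 (c := (1 / (m : ℂ) ^ 2) ^ 2 - 1) ?_ ?_
      · have := (ht.pow 2).sub_const 1
        refine this.congr ?_
        intro w; ring
      · intro h0
        have h5 : ((m : ℂ) ^ 4) = 1 := by
          field_simp at h0
          linear_combination -h0
        have h6 : m ^ 4 = 1 := by exact_mod_cast h5
        have h7 : 2 ^ 4 ≤ m ^ 4 := Nat.pow_le_pow_left hm2 4
        omega
    have h3 : meromorphicOrderAt (fun w => 2 * fR m w ^ 4 + 1) z = 0 := by
      refine order_of_tendsto h6 (c := 2 * (1 / (m : ℂ) ^ 2) ^ 2 + 1) ?_ ?_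
      · have := ((ht.pow 2).const_mul 2).add_const 1
        refine this.congr ?_
        intro w; ring
      · intro h0
        have h5 : (2 : ℂ) + (m : ℂ) ^ 4 = 0 := by
          field_simp at h0
          linear_combination h0
        have h6 : 2 + m ^ 4 = 0 := by exact_mod_cast h5
        omega
    rw [order_rho_eq, h2, h3]
    rfl

/-- the orders of `f` and `W(Nz)` are finite -/
lemma order_yR {m : ℕ} (hm2 : 2 ≤ m) (z : ℂ) :
    meromorphicOrderAt (yR m) z =
      meromorphicOrderAt (fR m) z + meromorphicOrderAt Wf (NR m * z) := by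
  have hNc : (NR m : ℂ) ≠ 0 := by exact_mod_cast (NR_pos hm2).ne'
  have h := meromorphicOrderAt_mul (fR_meromorphic m z) (WN_meromorphic m z)
  rw [order_Wf_comp hNc] at h
  exact h

lemma order_Wf_ne_top (z : ℂ) : meromorphicOrderAt Wf z ≠ ⊤ := by
  rcases curveAux_order_Wf_cases z with ⟨h, _⟩ | ⟨h, _⟩ | h <;> rw [h] <;>
    exact WithTop.coe_ne_top

lemma order_fR_ne_top {m : ℕ} (hm : Even m) (hm2 : 2 ≤ m) (z : ℂ) :
    meromorphicOrderAt (fR m) z ≠ ⊤ := by
  apply order_ne_top_everywhere (fR_meromorphic m)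
  exact ⟨1 / 2 - kk, by rw [order_fR_base hm hm2]; exact WithTop.coe_ne_top⟩

lemma order_yR_ne_top {m : ℕ} (hm : Even m) (hm2 : 2 ≤ m) (z : ℂ) :
    meromorphicOrderAt (yR m) z ≠ ⊤ := by
  rw [order_yR hm2]
  obtain ⟨a, ha⟩ := WithTop.ne_top_iff_exists.1 (order_fR_ne_top hm hm2 z)
  obtain ⟨b, hb⟩ := WithTop.ne_top_iff_exists.1 (order_Wf_ne_top (NR m * z))
  rw [← ha, ← hb, ← WithTop.coe_add]
  exact WithTop.coe_ne_top

lemma order_vR (m : ℕ) (z : ℂ) :
    meromorphicOrderAt (vR m) z = meromorphicOrderAt (yR m) z + meromorphicOrderAt (rho m) z :=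
  meromorphicOrderAt_mul (yR_meromorphic m z) (rho_meromorphic m z)

theorem zeroMult_vR_le {m : ℕ} (hm : Even m) (hm2 : 2 ≤ m) (z : ℂ) :
    zeroMult (vR m) z ≤ zeroMult (yR m) z := by
  rcases order_rho hm hm2 z with ⟨k, hk, hk0⟩ | ⟨hN, hf, hr⟩
  · apply zeroMult_le_of_le _ (order_yR_ne_top hm hm2 z)
    rw [order_vR, hk]
    have hk0' : (k : WithTop ℤ) ≤ 0 := by exact_mod_cast hk0
    calc meromorphicOrderAt (yR m) z + (k : WithTop ℤ)
        ≤ meromorphicOrderAt (yR m) z + 0 := by gcongr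
      _ = _ := add_zero _
  · have h1 : meromorphicOrderAt (vR m) z = 0 := by
      rw [order_vR, order_yR hm2, hf, hr, order_Wf_pole (Or.inl hN)]
      rfl
    have h2 : zeroMult (vR m) z = 0 := by
      unfold zeroMult
      rw [h1]
      rfl
    rw [h2]
    exact Nat.zero_le _

theorem degree_vR_le {m : ℕ} (hm : Even m) (hm2 : 2 ≤ m) :
    degree Lq (vR m) ≤ degree Lq (yR m) := by
  classical
  have hfin := finite_ord Lq (yR_meromorphic m)
  have hy : ∀ z ∈ parallelogram Lq, zeroMult (yR m) z ≠ 0 → z ∈ hfin.toFinset := by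
    intro z hz hne
    rw [Set.Finite.mem_toFinset]
    refine ⟨hz, fun h => hne ?_⟩
    unfold zeroMult
    rw [h]; rfl
  have hp : ∀ z ∈ hfin.toFinset, z ∈ parallelogram Lq := by
    intro z hz
    rw [Set.Finite.mem_toFinset] at hz
    exact hz.1
  have hv : ∀ z ∈ parallelogram Lq, zeroMult (vR m) z ≠ 0 → z ∈ hfin.toFinset := by
    intro z hz hne
    apply hy z hz
    have := zeroMult_vR_le hm hm2 z
    omega
  rw [degree_eq_sum _ hv hp, degree_eq_sum _ hy hp]
  exact Finset.sum_le_sum fun z _ => zeroMult_vR_le hm hm2 z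

/-- the degree of `f²` -/
theorem degree_fsq_ge {m : ℕ} (hm2 : 2 ≤ m) :
    2 * m ≤ degree Lq (fun z => fR m z ^ 2) := by
  classical
  have hmc : (m : ℂ) ≠ 0 := by exact_mod_cast (by omega : m ≠ 0)
  have hmer : Meromorphic (fun z => fR m z ^ 2) := by
    intro z
    have := fR_meromorphic m z
    fun_prop
  have hfin := finite_ord Lq hmer
  have hy : ∀ z ∈ parallelogram Lq, zeroMult (fun z => fR m z ^ 2) z ≠ 0 →
      z ∈ hfin.toFinset := by
    intro z hz hne
    rw [Set.Finite.mem_toFinset]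
    refine ⟨hz, fun h => hne ?_⟩
    unfold zeroMult
    rw [h]; rfl
  have hp' : ∀ z ∈ hfin.toFinset, z ∈ parallelogram Lq := by
    intro z hz
    rw [Set.Finite.mem_toFinset] at hz
    exact hz.1
  rw [degree_eq_sum _ hy hp']
  -- the points `z_j`
  set p : ℕ → ℂ := fun j => (((2 * j + 1 : ℕ) : ℝ) / (2 * m) : ℝ) with hp
  have hpc : ∀ j, p j = ((2 * j + 1 : ℕ) : ℂ) / (2 * m) := by
    intro j; simp [hp]
  have hinj : Function.Injective p := by
    intro i j hij
    rw [hpc, hpc, div_left_inj' (by simpa using hmc)] at hij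
    have : 2 * i + 1 = 2 * j + 1 := by exact_mod_cast hij
    omega
  have hmp : ∀ j, (m : ℂ) * p j - 1 / 2 ∈ Lq.lattice := by
    intro j
    rw [mem_Lq]
    refine ⟨j, 0, ?_⟩
    rw [hpc]; push_cast; field_simp; ring
  have h2p : ∀ j, 2 * (p j + kk) ∉ Lq.lattice := by
    intro j h
    obtain ⟨a, b, _, hb⟩ := mem_Lq'.1 h
    have h1 : (2 * (p j + kk)).im = 1 / 2 := by
      have e : 2 * (p j + kk) = 2 * p j + hh := by rw [← two_kk]; ring
      rw [e, hp]
      simp [hh, -Complex.ofReal_div]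
    rw [h1] at hb
    exact half_ne b hb
  have hpara : ∀ j < m, p j ∈ parallelogram Lq := by
    intro j hj
    rw [mem_para]
    refine ⟨((2 * j + 1 : ℕ) : ℝ) / (2 * m), 0, by positivity, ?_, le_refl _, zero_lt_one, ?_⟩
    · rw [div_lt_one (by positivity)]
      have : 2 * j + 1 < 2 * m := by omega
      exact_mod_cast this
    · simp [hp]
  have hone : ∀ j, zeroMult (fun z => fR m z ^ 2) (p j) = 2 := by
    intro j
    have h1 : meromorphicOrderAt (fR m) (p j) = ((1 : ℤ) : WithTop ℤ) := by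
      rw [order_fR (by omega), order_Wf_zero (Or.inl (hmp j)), order_Wf_other (h2p j)]
      rfl
    have h2 : meromorphicOrderAt (fun z => fR m z ^ 2) (p j) = ((2 : ℤ) : WithTop ℤ) := by
      rw [fun_meromorphicOrderAt_pow (fR_meromorphic m _), h1]
      norm_cast
    unfold zeroMult
    rw [h2]
    rfl
  have hsub : (Finset.range m).image p ⊆ hfin.toFinset := by
    intro z hz
    rw [Finset.mem_image] at hz
    obtain ⟨j, hj, rfl⟩ := hz
    apply hy _ (hpara j (Finset.mem_range.mp hj))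
    rw [hone j]; norm_num
  calc 2 * m = ∑ z ∈ (Finset.range m).image p, 2 := by
        rw [Finset.sum_const, smul_eq_mul, Finset.card_image_of_injective _ hinj,
          Finset.card_range, mul_comm]
    _ = ∑ z ∈ (Finset.range m).image p, zeroMult (fun z => fR m z ^ 2) z := by
        apply Finset.sum_congr rfl
        intro z hz
        rw [Finset.mem_image] at hz
        obtain ⟨j, hj, rfl⟩ := hz
        exact (hone j).symm
    _ ≤ _ := Finset.sum_le_sum_of_subset hsub

end MP79ab39.Rat
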