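import Pool.Agent.Lib_MP_79ab39_r.ConnR
import Pool.Agent.Lib_MP_79ab39_r.EvenR
import Pool.Agent.Lib_MP_79ab39_r.RhoR

/-! The rational curves on the rational surface. -/

open Complex PeriodPair Filter Topology

namespace MP79ab39.Rat

open MP79ab39

/-- the coordinate functions `x, y, r, U, v` of the curve -/
noncomputable def fn (m : ℕ) : Fin 5 → ℂ → ℂ :=
  ![fun z => Xf (NR m * z), yR m, fun z => Wf (NR m * z) / fR m z, fun z => fR m z ^ 2, vR m]

lemma fn_meromorphic (m : ℕ) (i : Fin 5) : Meromorphic (fn m i) := by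
  fin_cases i
  · exact curveAux_comp_mul_meromorphic Xf_meromorphic (NR m : ℂ)
  · exact yR_meromorphic m
  · exact fun z => (WN_meromorphic m z).div (fR_meromorphic m z)
  · intro z
    have := fR_meromorphic m z
    show MeromorphicAt (fun z => fR m z ^ 2) z
    fun_prop
  · exact vR_meromorphic m

lemma WN_periodic (m : ℕ) {l : ℂ} (hl : l ∈ Lq.lattice) (z : ℂ) :
    Wf (NR m * (z + l)) = Wf (NR m * z) := by
  rw [mul_add, Wf_periodic (nat_mul_mem _ hl)]

lemma WN_neg (m : ℕ) (z : ℂ) : Wf (NR m * -z) = - Wf (NR m * z) := by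
  rw [mul_neg, Wf_neg]

lemma fn_periodic (m : ℕ) (i : Fin 5) : ∀ l ∈ Lq.lattice, ∀ z, fn m i (z + l) = fn m i z := by
  intro l hl z
  have hf := fR_periodic m hl z
  have hW := WN_periodic m hl z
  fin_cases i
  · show Xf (NR m * (z + l)) = Xf (NR m * z)
    rw [mul_add, Xf_periodic (nat_mul_mem _ hl)]
  · show yR m (z + l) = yR m z
    unfold yR
    rw [hf, hW]
  · show Wf (NR m * (z + l)) / fR m (z + l) = Wf (NR m * z) / fR m z
    rw [hf, hW]
  · show fR m (z + l) ^ 2 = fR m z ^ 2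
    rw [hf]
  · show vR m (z + l) = vR m z
    unfold vR yR rho
    rw [hf, hW]

lemma fn_even (m : ℕ) (i : Fin 5) : ∀ z, fn m i (-z) = fn m i z := by
  intro z
  have hf := fR_neg m z
  have hW := WN_neg m z
  fin_cases i
  · show Xf (NR m * -z) = Xf (NR m * z)
    rw [mul_neg, Xf, Xf, Lq.weierstrassP_neg]
  · show yR m (-z) = yR m z
    unfold yR
    rw [hf, hW]
    ring
  · show Wf (NR m * -z) / fR m (-z) = Wf (NR m * z) / fR m z
    rw [hf, hW, neg_div_neg_eq]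
  · show fR m (-z) ^ 2 = fR m z ^ 2
    rw [hf]
    ring
  · show vR m (-z) = vR m z
    unfold vR yR rho
    rw [hf, hW]
    ring

/-- the relations between the coordinate functions -/
lemma fn_relations {m : ℕ} (hm : Even m) (hm2 : 2 ≤ m) (z : ℂ) : ∀ᶠ w in 𝓝[≠] z,
    fn m 2 w * fn m 1 w * fn m 0 w = fn m 0 w ^ 2 - 1 ∧
    fn m 2 w * fn m 3 w = fn m 1 w ∧
    fn m 4 w * (2 * fn m 3 w ^ 2 + 1) = (fn m 3 w ^ 2 - 1) * fn m 1 w := by
  have hNc : (NR m : ℂ) ≠ 0 := by exact_mod_cast (NR_pos hm2).ne'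
  have h1 : ∀ᶠ w in 𝓝[≠] z, fR m w ≠ 0 :=
    (meromorphicOrderAt_ne_top_iff_eventually_ne_zero (fR_meromorphic m z)).1
      (order_fR_ne_top hm hm2 z)
  have h2 : ∀ᶠ w in 𝓝[≠] z, Wf (NR m * w) ≠ 0 :=
    (meromorphicOrderAt_ne_top_iff_eventually_ne_zero (WN_meromorphic m z)).1
      (by rw [order_Wf_comp hNc]; exact order_Wf_ne_top _)
  have h3 : ∀ᶠ w in 𝓝[≠] z, 2 * fR m w ^ 4 + 1 ≠ 0 :=
    (meromorphicOrderAt_ne_top_iff_eventually_ne_zero (f2_meromorphic m z)).1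
      (order_2f4_ne_top hm hm2 z)
  filter_upwards [h1, h2, h3] with w h1 h2 h3
  have h4 : 2 * ((NR m : ℂ) * w) ∉ Lq.lattice := fun h => h2 (Wf_eq_zero_iff.2 h)
  have h5 := Wf_sq_mul_Xf (not_mem_of_two h4).1 (not_mem_of_two h4).2
  refine ⟨?_, ?_, ?_⟩
  · show Wf (NR m * w) / fR m w * (fR m w * Wf (NR m * w)) * Xf (NR m * w) = Xf (NR m * w) ^ 2 - 1
    rw [← h5]
    field_simp
  · show Wf (NR m * w) / fR m w * fR m w ^ 2 = fR m w * Wf (NR m * w)
    field_simp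
  · show yR m w * ((fR m w ^ 4 - 1) / (2 * fR m w ^ 4 + 1)) * (2 * (fR m w ^ 2) ^ 2 + 1) =
      ((fR m w ^ 2) ^ 2 - 1) * yR m w
    have e : 2 * (fR m w ^ 2) ^ 2 + 1 = 2 * fR m w ^ 4 + 1 := by ring
    rw [e, mul_assoc, div_mul_cancel₀ _ h3]
    ring

lemma countable_of_eventually {g : ℂ → ℂ} (h : ∀ z, ∀ᶠ w in 𝓝[≠] z, g w = 0) :
    {z | g z ≠ 0}.Countable := by
  have h2 : ∀ z, {w | w ≠ z → g w = 0} ∈ 𝓝 z := by
    intro z
    have := h z
    rw [eventually_nhdsWithin_iff] at this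
    exact this
  obtain ⟨s, hs, hcov⟩ := TopologicalSpace.countable_cover_nhds h2
  refine hs.mono fun w hw => ?_
  have hmem : w ∈ ⋃ x ∈ s, {w | w ≠ x → g w = 0} := by rw [hcov]; trivial
  simp only [Set.mem_iUnion] at hmem
  obtain ⟨x, hx, hwx⟩ := hmem
  by_cases h : w = x
  · rw [h]; exact hx
  · exact absurd (hwx h) hw

theorem birational_aux {m : ℕ} (hm : Even m) (hm2 : 2 ≤ m) {p q : Fin 5 → Polynomial ℂ}
    (hq0 : ∀ i, q i ≠ 0) (hpq : ∀ i, ∀ z, ∀ᶠ w in 𝓝[≠] z, fn m i w * PP (q i) w = PP (p i) w) :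
    ∃ D : Set ℂ, D.Countable ∧ ∀ t ∉ D, ∀ t' ∉ D,
      (∀ i, (p i).eval t * (q i).eval t' = (p i).eval t' * (q i).eval t) → t = t' := by
  have hNc : (NR m : ℂ) ≠ 0 := by exact_mod_cast (NR_pos hm2).ne'
  set T : Set ℂ := {τ | (NR m : ℂ) * τ + 0 ∈ Lq.lattice ∧ τ ∉ Lq.lattice} with hT
  have hTc : T.Countable := (curveAux_countable_preimage (b := 0) hNc).mono fun τ h => h.1
  have hU : ∀ τ ∈ T, {z | fR m (z + τ) - fR m z = 0}.Countable := by
    intro τ hτ
    have hmer : Meromorphic (fun w => fR m (w + τ) - fR m w) := fun z =>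
      (meromorphic_comp_add (fR_meromorphic m) τ z).sub (fR_meromorphic m z)
    exact countable_zeros hmer (fR_translate_ne hm hm2 hτ.2)
  have hE : ∀ i : Fin 5, {z | fn m i z * PP (q i) z - PP (p i) z ≠ 0}.Countable := by
    intro i
    apply countable_of_eventually
    intro z
    filter_upwards [hpq i z] with w hw
    rw [hw, sub_self]
  have hZ : ∀ i : Fin 5, {z | PP (q i) z = 0}.Countable := fun i =>
    countable_zeros (PP_meromorphic (q i)) (z₀ := 0) (order_PP_ne_top (hq0 i) 0)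
  have hW : {z | Wf (NR m * z) = 0}.Countable :=
    countable_zeros (WN_meromorphic m) (z₀ := 0)
      (by rw [order_Wf_comp hNc]; exact order_Wf_ne_top _)
  set D0 : Set ℂ := (⋃ τ ∈ T, {z | fR m (z + τ) - fR m z = 0}) ∪
    ((⋃ i : Fin 5, {z | fn m i z * PP (q i) z - PP (p i) z ≠ 0}) ∪
      ((⋃ i : Fin 5, {z | PP (q i) z = 0}) ∪ {z | Wf (NR m * z) = 0})) with hD0
  have hD0c : D0.Countable :=
    (hTc.biUnion hU).union ((Set.countable_iUnion hE).union ((Set.countable_iUnion hZ).union hW))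
  refine ⟨℘[Lq] '' D0, hD0c.image _, fun t ht t' ht' heq => ?_⟩
  have hout : ∀ s ∉ ℘[Lq] '' D0, ∀ z, ℘[Lq] z = s → z ∉ D0 := by
    intro s hs z hz hzD
    exact hs ⟨z, hzD, hz⟩
  have hgood : ∀ z ∉ D0, (∀ τ ∈ T, fR m (z + τ) ≠ fR m z) ∧
      (∀ i, fn m i z * PP (q i) z = PP (p i) z) ∧ (∀ i, PP (q i) z ≠ 0) ∧
      Wf (NR m * z) ≠ 0 := by
    intro z hz
    simp only [hD0, Set.mem_union, not_or, Set.mem_iUnion, not_exists] at hz
    obtain ⟨h1, h2, h3, h4⟩ := hz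
    refine ⟨fun τ hτ h => h1 τ hτ (sub_eq_zero.2 h), fun i => ?_, fun i => h3 i, h4⟩
    by_contra h
    exact h2 i (sub_ne_zero.2 h)
  have hval : ∀ w w', ℘[Lq] w = t → ℘[Lq] w' = t' → ∀ i, fn m i w = fn m i w' := by
    intro w w' hw hw' i
    obtain ⟨_, h1, h2, _⟩ := hgood w (hout t ht w hw)
    obtain ⟨_, h1', h2', _⟩ := hgood w' (hout t' ht' w' hw')
    have e1 := h1 i
    have e1' := h1' i
    have e2 := h2 i
    have e2' := h2' i
    have e3 := heq i
    simp only [PP, hw, hw'] at e1 e1' e2 e2'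
    apply mul_right_cancel₀ (mul_ne_zero e2 e2')
    linear_combination e3 + (q i).eval t' * e1 - (q i).eval t * e1'
  obtain ⟨z, hz, hzt⟩ := P_surjective Lq t
  obtain ⟨z', hz', hzt'⟩ := P_surjective Lq t'
  obtain ⟨_, _, _, hWz⟩ := hgood z (hout t ht z hzt)
  obtain ⟨_, _, _, hWz'⟩ := hgood z' (hout t' ht' z' hzt')
  have hNz := not_mem_of_two (fun h => hWz (Wf_eq_zero_iff.2 h))
  have hNz' := not_mem_of_two (fun h => hWz' (Wf_eq_zero_iff.2 h))
  have hX : ℘[Lq] (NR m * z) = ℘[Lq] (NR m * z') := by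
    have h0 : Xf (NR m * z) = Xf (NR m * z') := hval z z' hzt hzt' 0
    unfold Xf at h0
    exact (div_left_inj' ee_ne_zero).1 h0
  obtain ⟨w, hw, hNw⟩ : ∃ w, ℘[Lq] w = t' ∧ (NR m : ℂ) * z - NR m * w ∈ Lq.lattice := by
    rcases (P_eq_iff Lq hNz.1 hNz'.1).1 hX with h | h
    · exact ⟨z', hzt', h⟩
    · refine ⟨-z', by rw [Lq.weierstrassP_neg, hzt'], ?_⟩
      rw [mul_neg, sub_neg_eq_add]
      exact h
  have hWw : Wf (NR m * z) = Wf (NR m * w) := by
    have := Wf_periodic hNw (NR m * w)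
    rwa [add_sub_cancel] at this
  have hy : fR m z * Wf (NR m * z) = fR m w * Wf (NR m * w) := hval z w hzt hw 1
  rw [← hWw] at hy
  have hf := mul_right_cancel₀ hWz hy
  by_cases hτ : w - z ∈ Lq.lattice
  · rw [← hzt, ← hw]
    exact (P_eq_of_sub_mem hτ).symm
  · exfalso
    have hτT : w - z ∈ T := by
      refine ⟨?_, hτ⟩
      rw [add_zero, mul_sub]
      have := neg_mem hNw
      rwa [neg_sub] at this
    apply (hgood z (hout t ht z hzt)).1 _ hτT
    rw [add_sub_cancel, hf]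

theorem exists_curve {m : ℕ} (hm : Even m) (hm2 : 2 ≤ m) :
    ∃ C : RationalCurve surf, (m : ℤ) ≤ C.canonicalDegree := by
  have hex := fun i => exists_ratio (fn_meromorphic m i) (fn_periodic m i) (fn_even m i)
  choose p q hcop hq0 hpq using hex
  have hrel : ∀ᶠ w in 𝓝[≠] (0 : ℂ), (∀ i, fn m i w * PP (q i) w = PP (p i) w) ∧
      fn m 2 w * fn m 1 w * fn m 0 w = fn m 0 w ^ 2 - 1 ∧
      fn m 2 w * fn m 3 w = fn m 1 w ∧
      fn m 4 w * (2 * fn m 3 w ^ 2 + 1) = (fn m 3 w ^ 2 - 1) * fn m 1 w :=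
    (eventually_all.2 fun i => hpq i 0).and (fn_relations hm hm2 0)
  have hΦ0 : p 2 * p 1 * p 0 * q 0 - q 2 * q 1 * (p 0 ^ 2 - q 0 ^ 2) = 0 := by
    apply eq_zero_of_eventually (z := 0)
    filter_upwards [hrel] with w ⟨h, h0, _, _⟩
    have e : PP (p 2 * p 1 * p 0 * q 0 - q 2 * q 1 * (p 0 ^ 2 - q 0 ^ 2)) w =
        PP (p 2) w * PP (p 1) w * PP (p 0) w * PP (q 0) w -
          PP (q 2) w * PP (q 1) w * (PP (p 0) w ^ 2 - PP (q 0) w ^ 2) := by
      simp [PP]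
    rw [e, ← h 0, ← h 1, ← h 2]
    linear_combination (PP (q 2) w * PP (q 1) w * PP (q 0) w ^ 2) * h0
  have hΦ1 : p 2 * p 3 * q 1 - q 2 * q 3 * p 1 = 0 := by
    apply eq_zero_of_eventually (z := 0)
    filter_upwards [hrel] with w ⟨h, _, h1, _⟩
    have e : PP (p 2 * p 3 * q 1 - q 2 * q 3 * p 1) w =
        PP (p 2) w * PP (p 3) w * PP (q 1) w - PP (q 2) w * PP (q 3) w * PP (p 1) w := by
      simp [PP]
    rw [e, ← h 1, ← h 2, ← h 3]
    linear_combination (PP (q 1) w * PP (q 2) w * PP (q 3) w) * h1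
  have hΦ2 : p 4 * (2 * p 3 ^ 2 + q 3 ^ 2) * q 1 - q 4 * (p 3 ^ 2 - q 3 ^ 2) * p 1 = 0 := by
    apply eq_zero_of_eventually (z := 0)
    filter_upwards [hrel] with w ⟨h, _, _, h2⟩
    have e : PP (p 4 * (2 * p 3 ^ 2 + q 3 ^ 2) * q 1 - q 4 * (p 3 ^ 2 - q 3 ^ 2) * p 1) w =
        PP (p 4) w * (2 * PP (p 3) w ^ 2 + PP (q 3) w ^ 2) * PP (q 1) w -
          PP (q 4) w * (PP (p 3) w ^ 2 - PP (q 3) w ^ 2) * PP (p 1) w := by
      simp [PP]
    rw [e, ← h 1, ← h 3, ← h 4]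
    linear_combination (PP (q 1) w * PP (q 3) w ^ 2 * PP (q 4) w) * h2
  have hne : ∀ i, meromorphicOrderAt (fn m i) 0 ≠ ⊤ → p i ≠ 0 := by
    intro i hi h0
    apply hi
    rw [meromorphicOrderAt_eq_top_iff]
    filter_upwards [hpq i 0, PP_eventually_ne (hq0 i) 0] with w hw hw'
    rw [h0] at hw
    have : PP 0 w = 0 := by simp [PP]
    rw [this] at hw
    exact (mul_eq_zero.1 hw).resolve_right hw'
  have hdeg : ∀ i, meromorphicOrderAt (fn m i) 0 ≠ ⊤ →
      degree Lq (fn m i) = 2 * max (p i).natDegree (q i).natDegree := fun i hi =>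
    degree_ratio (fn_meromorphic m i) (hne i hi) (hq0 i) (hcop i) (hpq i)
  have hy := hdeg 1 (order_yR_ne_top hm hm2 0)
  have hU := hdeg 3 (by
    show meromorphicOrderAt (fun z => fR m z ^ 2) 0 ≠ ⊤
    rw [fun_meromorphicOrderAt_pow (fR_meromorphic m 0)]
    obtain ⟨a, ha⟩ := WithTop.ne_top_iff_exists.1 (order_fR_ne_top hm hm2 0)
    rw [← ha]
    have : ((2 : ℕ) : WithTop ℤ) * ((a : ℤ) : WithTop ℤ) = ((2 * a : ℤ) : WithTop ℤ) := by
      norm_cast
    rw [this]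
    exact WithTop.coe_ne_top)
  have hv := hdeg 4 (by
    show meromorphicOrderAt (vR m) 0 ≠ ⊤
    rw [order_vR]
    obtain ⟨a, ha⟩ := WithTop.ne_top_iff_exists.1 (order_yR_ne_top hm hm2 0)
    rw [← ha]
    rcases order_rho hm hm2 0 with ⟨k, hk, _⟩ | ⟨_, _, hr⟩
    · rw [hk, ← WithTop.coe_add]
      exact WithTop.coe_ne_top
    · rw [hr]
      exact WithTop.coe_ne_top)
  have hle : degree Lq (fn m 4) ≤ degree Lq (fn m 1) := degree_vR_le hm hm2
  have hge : 2 * m ≤ degree Lq (fn m 3) := degree_fsq_ge hm2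
  rw [hy, hv] at hle
  rw [hU] at hge
  have hmem : ∀ t : ℂ, ∀ j, MvPolynomial.eval (fun a : Coord 3 =>
      if a.2 = 0 then (p a.1).eval t else (q a.1).eval t) (surf.F j) = 0 := by
    intro t j
    have e0 := congrArg (Polynomial.eval t) hΦ0
    have e1 := congrArg (Polynomial.eval t) hΦ1
    have e2 := congrArg (Polynomial.eval t) hΦ2
    simp only [Polynomial.eval_sub, Polynomial.eval_mul, Polynomial.eval_pow,
      Polynomial.eval_add, Polynomial.eval_zero, Polynomial.eval_ofNat] at e0 e1 e2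
    fin_cases j
    · simp [surf, F1]
      linear_combination e0
    · simp [surf, F2]
      linear_combination e1
    · simp [surf, F3]
      linear_combination e2
  refine ⟨⟨p, q, hcop, hmem, birational_aux hm hm2 hq0 hpq⟩, ?_⟩
  have hK : (⟨p, q, hcop, hmem, birational_aux hm hm2 hq0 hpq⟩ :
      RationalCurve surf).canonicalDegree = (max (p 1).natDegree (q 1).natDegree : ℕ) +
        (max (p 3).natDegree (q 3).natDegree : ℕ) - (max (p 4).natDegree (q 4).natDegree : ℕ) := by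
    simp only [RationalCurve.canonicalDegree, CISurface.canonicalClass, surf]
    rw [Fin.sum_univ_five]
    simp [Fin.sum_univ_three]
    ring
  rw [hK]
  omega

/-- **A smooth projective rational surface with rational curves of unbounded canonical degree.** -/
theorem main : ∃ (c : ℕ) (X : CISurface c), X.IsRational ∧
    ∀ A B : ℝ, ∃ C : RationalCurve X, A * ((0 : ℝ) - 1) + B < (C.canonicalDegree : ℝ) := by
  refine ⟨3, surf, surf_isRational, fun A B => ?_⟩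
  obtain ⟨n, hn⟩ := exists_nat_gt (A * ((0 : ℝ) - 1) + B)
  obtain ⟨C, hC⟩ := exists_curve (m := 2 * n + 2) ⟨n + 1, by ring⟩ (by omega)
  refine ⟨C, ?_⟩
  have h : ((2 * n + 2 : ℕ) : ℝ) ≤ (C.canonicalDegree : ℝ) := by exact_mod_cast hC
  push_cast at h
  have hn0 : (0 : ℝ) ≤ n := Nat.cast_nonneg n
  linarith

end MP79ab39.Rat
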