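import Pool.Agent.Lib_MP_79ab39_ag.Defs

/-!
# Rational surfaces and rational curves in `(P¹)^(c+2)`
-/

open MvPolynomial

namespace MP79ab39

/-- The surface `X` is rational: it has a birational parametrisation by the plane `ℂ²`.  The
homogeneous coordinates of the parametrisation are polynomials `g a` in two variables; off the
curve `h = 0` it is defined, its values lie on `X`, and it is injective (two vectors of
homogeneous coordinates give the same point of `(P¹)^(c+2)` exactly when
`x (i, 0) * y (i, 1) = y (i, 0) * x (i, 1)` for all `i`).  As `X` is an irreducible surface over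
`ℂ`, such a map is dominant and birational. -/
def CISurface.IsRational {c : ℕ} (X : CISurface c) : Prop :=
  ∃ (g : Coord c → MvPolynomial (Fin 2) ℂ) (h : MvPolynomial (Fin 2) ℂ), h ≠ 0 ∧
    (∀ s : Fin 2 → ℂ, eval s h ≠ 0 →
      IsPoint (fun a => eval s (g a)) ∧ ∀ j, eval (fun a => eval s (g a)) (X.F j) = 0) ∧
    ∀ s s' : Fin 2 → ℂ, eval s h ≠ 0 → eval s' h ≠ 0 →
      (∀ i, eval s (g (i, 0)) * eval s' (g (i, 1)) = eval s' (g (i, 0)) * eval s (g (i, 1))) →
      s = s'

/-- A rational curve on the surface `X` (an irreducible curve of geometric genus `0`), presented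
by its normalisation `ν : P¹ → X ⊆ (P¹)^(c+2)`, `ν(t) = ([p 0 (t) : q 0 (t)], ...)`, where for
each `i` the polynomials `p i`, `q i` in one variable are coprime.  The condition `birational`
says that `ν` is injective off a countable set, that is, birational onto its image (in particular
it is not constant). -/
structure RationalCurve {c : ℕ} (X : CISurface c) where
  /-- the numerators of the coordinate functions -/
  p : Fin (c + 2) → Polynomial ℂ
  /-- the denominators of the coordinate functions -/
  q : Fin (c + 2) → Polynomial ℂ
  coprime : ∀ i, IsCoprime (p i) (q i)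
  mem : ∀ t : ℂ, ∀ j,
    eval (fun a : Coord c => if a.2 = 0 then (p a.1).eval t else (q a.1).eval t) (X.F j) = 0
  birational : ∃ D : Set ℂ, D.Countable ∧ ∀ t ∉ D, ∀ t' ∉ D,
    (∀ i, (p i).eval t * (q i).eval t' = (p i).eval t' * (q i).eval t) → t = t'

/-- The canonical degree `K_X · C = deg ν^* K_X` (projection formula): the pullback by `ν` of the
`i`-th hyperplane class has degree `max (deg (p i)) (deg (q i))`. -/
noncomputable def RationalCurve.canonicalDegree {c : ℕ} {X : CISurface c}
    (C : RationalCurve X) : ℤ :=
  ∑ i, X.canonicalClass i * (max (C.p i).natDegree (C.q i).natDegree : ℕ)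

end MP79ab39
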