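import Pool.Agent.Lib_MP_79ab39_ag.OrderU
import Pool.Agent.Lib_MP_79ab39_ag.RBound
import Pool.Agent.Lib_MP_79ab39_ag.Degree
import Pool.Agent.Lib_MP_79ab39_ag.Curve

/-! The functions used for the rational curves: `f = W(mz)/W(z+κ)` with `κ = h/2`. -/

open Complex PeriodPair Filter Topology

namespace MP79ab39.Rat

open MP79ab39

/-- the quarter period `κ = h/2` -/
noncomputable def kk : ℂ := hh / 2

/-- `f = W(mz)/W(z+κ)` -/
noncomputable def fR (m : ℕ) (z : ℂ) : ℂ := Wf (m * z) / Wf (z + kk)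

/-- the multiplier `N = 4 (m⁴ - 1)` -/
def NR (m : ℕ) : ℕ := 4 * (m ^ 4 - 1)

/-- `ρ = (f⁴ - 1)/(2 f⁴ + 1)` -/
noncomputable def rho (m : ℕ) (z : ℂ) : ℂ := (fR m z ^ 4 - 1) / (2 * fR m z ^ 4 + 1)

/-- `y = f(z) W(Nz)` -/
noncomputable def yR (m : ℕ) (z : ℂ) : ℂ := fR m z * Wf (NR m * z)

/-- `v = y ρ` -/
noncomputable def vR (m : ℕ) (z : ℂ) : ℂ := yR m z * rho m z

lemma NR_pos {m : ℕ} (hm2 : 2 ≤ m) : 0 < NR m := by
  unfold NR
  have h1 : 1 < m ^ 4 := Nat.one_lt_pow (by norm_num) (by omega)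
  omega

lemma NR_cast {m : ℕ} (hm : 1 ≤ m) : (NR m : ℂ) = 4 * ((m : ℂ) ^ 4 - 1) := by
  unfold NR
  rw [Nat.cast_mul, Nat.cast_sub (Nat.one_le_pow _ _ hm)]
  push_cast
  ring

lemma two_kk : 2 * kk = hh := by unfold kk; ring

lemma four_kk_mem : 4 * kk ∈ Lq.lattice := by
  have : 4 * kk = 2 * hh := by unfold kk; ring
  rw [this]; exact two_hh_mem

lemma meromorphic_comp_add {f : ℂ → ℂ} (hf : Meromorphic f) (a : ℂ) :
    Meromorphic (fun z => f (z + a)) := by
  intro z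
  exact MeromorphicAt.comp_analyticAt (f := f) (g := fun w : ℂ => w + a) (hf (z + a))
    (by fun_prop)

lemma fR_meromorphic (m : ℕ) : Meromorphic (fR m) := fun z =>
  (curveAux_comp_mul_meromorphic Wf_meromorphic (m : ℂ) z).div
    (meromorphic_comp_add Wf_meromorphic kk z)

lemma WN_meromorphic (m : ℕ) : Meromorphic (fun z => Wf (NR m * z)) :=
  curveAux_comp_mul_meromorphic Wf_meromorphic (NR m : ℂ)

lemma yR_meromorphic (m : ℕ) : Meromorphic (yR m) := fun z =>
  (fR_meromorphic m z).mul (WN_meromorphic m z)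

lemma rho_meromorphic (m : ℕ) : Meromorphic (rho m) := by
  intro z
  have := fR_meromorphic m z
  unfold rho
  fun_prop

lemma vR_meromorphic (m : ℕ) : Meromorphic (vR m) := fun z =>
  (yR_meromorphic m z).mul (rho_meromorphic m z)

lemma fR_periodic (m : ℕ) {l : ℂ} (hl : l ∈ Lq.lattice) (z : ℂ) : fR m (z + l) = fR m z := by
  unfold fR
  have e : z + l + kk = z + kk + l := by ring
  rw [mul_add, Wf_periodic (nat_mul_mem m hl), e, Wf_periodic hl]

lemma fR_neg (m : ℕ) (z : ℂ) : fR m (-z) = - fR m z := by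
  unfold fR
  have e1 : (m : ℂ) * -z = -(m * z) := by ring
  have e2 : -z + kk = -(z + kk) + hh := by rw [← two_kk]; ring
  rw [e1, Wf_neg, e2, Wf_add_hh, Wf_neg, neg_neg, neg_div]

lemma nat_mul_hh {m : ℕ} (hm : Even m) : (m : ℂ) * hh ∈ Lq.lattice := by
  obtain ⟨k, rfl⟩ := hm
  have : ((k + k : ℕ) : ℂ) * hh = (k : ℂ) * (2 * hh) := by push_cast; ring
  rw [this]
  exact nat_mul_mem k two_hh_mem

lemma fR_add_hh {m : ℕ} (hm : Even m) (z : ℂ) : fR m (z + hh) = - fR m z := by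
  unfold fR
  have e : z + hh + kk = z + kk + hh := by ring
  rw [mul_add, Wf_periodic (nat_mul_hh hm), e, Wf_add_hh, div_neg]

lemma order_fR {m : ℕ} (hm : 1 ≤ m) (z : ℂ) :
    meromorphicOrderAt (fR m) z =
      meromorphicOrderAt Wf (m * z) - meromorphicOrderAt Wf (z + kk) := by
  have hmc : (m : ℂ) ≠ 0 := Nat.cast_ne_zero.2 (by omega)
  have h3 : fR m = (fun w : ℂ => Wf (m * w)) / fun w => Wf (w + kk) := by
    funext w; rfl
  rw [h3, meromorphicOrderAt_div (curveAux_comp_mul_meromorphic Wf_meromorphic (m : ℂ) z)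
    (meromorphic_comp_add Wf_meromorphic kk z), order_Wf_comp hmc,
    meromorphicOrderAt_fun_comp_add_const_eq_meromorphicOrderAt]

/-- multiples of the quarter period -/
lemma half_class {m : ℕ} (hm : Even m) {z : ℂ} (hz : z + kk ∈ Lq.lattice ∨ z + kk - hh ∈ Lq.lattice) :
    (m : ℂ) * z ∈ Lq.lattice ∨ (m : ℂ) * z - hh ∈ Lq.lattice := by
  obtain ⟨k, rfl⟩ := hm
  -- `2z ≡ hh`
  have h2 : 2 * z - hh ∈ Lq.lattice := by
    rcases hz with h | h
    · have e : 2 * z - hh = ((2 : ℕ) : ℂ) * (z + kk) - 2 * hh := by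
        unfold kk; push_cast; ring
      rw [e]
      exact sub_mem (nat_mul_mem 2 h) two_hh_mem
    · have e : 2 * z - hh = ((2 : ℕ) : ℂ) * (z + kk - hh) := by
        unfold kk; push_cast; ring
      rw [e]
      exact nat_mul_mem 2 h
  rcases Nat.even_or_odd k with ⟨j, rfl⟩ | ⟨j, rfl⟩
  · left
    have e : ((j + j + (j + j) : ℕ) : ℂ) * z =
        ((j + j : ℕ) : ℂ) * (2 * z - hh) + (j : ℂ) * (2 * hh) := by
      push_cast; ring
    rw [e]
    exact add_mem (nat_mul_mem _ h2) (nat_mul_mem j two_hh_mem)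
  · right
    have e : ((2 * j + 1 + (2 * j + 1) : ℕ) : ℂ) * z - hh =
        ((2 * j + 1 : ℕ) : ℂ) * (2 * z - hh) + (j : ℂ) * (2 * hh) := by
      push_cast; ring
    rw [e]
    exact add_mem (nat_mul_mem _ h2) (nat_mul_mem j two_hh_mem)

/-- at the zeros of `W(z+κ)`, `W(mz)` has a pole -/
lemma pole_of_zero {m : ℕ} (hm : Even m) {z : ℂ}
    (hz : z + kk - 1 / 2 ∈ Lq.lattice ∨ z + kk - Complex.I / 2 ∈ Lq.lattice) :
    (m : ℂ) * z ∈ Lq.lattice ∨ (m : ℂ) * z - hh ∈ Lq.lattice := by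
  obtain ⟨k, rfl⟩ := hm
  have hI : Complex.I ∈ Lq.lattice := mem_Lq.2 ⟨0, 1, by simp⟩
  have h2 : 2 * z - hh ∈ Lq.lattice := by
    rcases hz with h | h
    · have e : 2 * z - hh = ((2 : ℕ) : ℂ) * (z + kk - 1 / 2) + 1 - 2 * hh := by
        unfold kk; push_cast; ring
      rw [e]
      exact sub_mem (add_mem (nat_mul_mem 2 h) one_mem_Lq) two_hh_mem
    · have e : 2 * z - hh = ((2 : ℕ) : ℂ) * (z + kk - Complex.I / 2) + Complex.I - 2 * hh := by
        unfold kk; push_cast; ring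
      rw [e]
      exact sub_mem (add_mem (nat_mul_mem 2 h) hI) two_hh_mem
  rcases Nat.even_or_odd k with ⟨j, rfl⟩ | ⟨j, rfl⟩
  · left
    have e : ((j + j + (j + j) : ℕ) : ℂ) * z =
        ((j + j : ℕ) : ℂ) * (2 * z - hh) + (j : ℂ) * (2 * hh) := by
      push_cast; ring
    rw [e]
    exact add_mem (nat_mul_mem _ h2) (nat_mul_mem j two_hh_mem)
  · right
    have e : ((2 * j + 1 + (2 * j + 1) : ℕ) : ℂ) * z - hh =
        ((2 * j + 1 : ℕ) : ℂ) * (2 * z - hh) + (j : ℂ) * (2 * hh) := by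
      push_cast; ring
    rw [e]
    exact add_mem (nat_mul_mem _ h2) (nat_mul_mem j two_hh_mem)

lemma order_fR_at {m : ℕ} (hm : Even m) (hm2 : 2 ≤ m) {z : ℂ}
    (hz : z + kk - 1 / 2 ∈ Lq.lattice ∨ z + kk - Complex.I / 2 ∈ Lq.lattice) :
    meromorphicOrderAt (fR m) z = ((-2 : ℤ) : WithTop ℤ) := by
  rw [order_fR (by omega), order_Wf_pole (pole_of_zero hm hz), order_Wf_zero hz]
  rfl

/-- where `f` has order `-2` -/
lemma order_fR_eq_neg_two {m : ℕ} (hm2 : 2 ≤ m) {z : ℂ}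
    (h : meromorphicOrderAt (fR m) z = ((-2 : ℤ) : WithTop ℤ)) :
    z + kk - 1 / 2 ∈ Lq.lattice ∨ z + kk - Complex.I / 2 ∈ Lq.lattice := by
  rw [order_fR (by omega)] at h
  rcases curveAux_order_Wf_cases (z + kk) with ⟨h1, h1'⟩ | ⟨h1, h1'⟩ | h1
  · exfalso
    rcases curveAux_order_Wf_cases (m * z) with ⟨h2, _⟩ | ⟨h2, _⟩ | h2 <;> rw [h1, h2] at h
    · have : ((-1 : ℤ) - (-1 : ℤ) : ℤ) = -2 := by exact_mod_cast h
      norm_num at this
    · have : ((1 : ℤ) - (-1 : ℤ) : ℤ) = -2 := by exact_mod_cast h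
      norm_num at this
    · have : ((0 : ℤ) - (-1 : ℤ) : ℤ) = -2 := by exact_mod_cast h
      norm_num at this
  · exact h1'
  · exfalso
    rcases curveAux_order_Wf_cases (m * z) with ⟨h2, _⟩ | ⟨h2, _⟩ | h2 <;> rw [h1, h2] at h
    · have : ((-1 : ℤ) - (0 : ℤ) : ℤ) = -2 := by exact_mod_cast h
      norm_num at this
    · have : ((1 : ℤ) - (0 : ℤ) : ℤ) = -2 := by exact_mod_cast h
      norm_num at this
    · have : ((0 : ℤ) - (0 : ℤ) : ℤ) = -2 := by exact_mod_cast h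
      norm_num at this

/-- `f` has no periods outside the lattice -/
lemma fR_translate_ne {m : ℕ} (hm : Even m) (hm2 : 2 ≤ m) {τ : ℂ} (hτ : τ ∉ Lq.lattice) :
    meromorphicOrderAt (fun w => fR m (w + τ) - fR m w) (1 / 2 - kk) ≠ ⊤ := by
  intro htop
  rw [meromorphicOrderAt_eq_top_iff] at htop
  have h0 : meromorphicOrderAt (fR m) (1 / 2 - kk) = ((-2 : ℤ) : WithTop ℤ) := by
    apply order_fR_at hm hm2
    left
    have : (1 / 2 - kk + kk - 1 / 2 : ℂ) = 0 := by ring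
    rw [this]; exact zero_mem _
  have h1 : (fun w => fR m (w + τ)) =ᶠ[𝓝[≠] (1 / 2 - kk)] fun w => fR m w := by
    filter_upwards [htop] with z hz
    exact sub_eq_zero.1 hz
  have h2 := meromorphicOrderAt_congr h1
  rw [meromorphicOrderAt_fun_comp_add_const_eq_meromorphicOrderAt] at h2
  have h3 : meromorphicOrderAt (fR m) (1 / 2 - kk + τ) = ((-2 : ℤ) : WithTop ℤ) := h2.trans h0
  rcases order_fR_eq_neg_two hm2 h3 with h4 | h4
  · apply hτ
    have : (1 / 2 - kk + τ + kk - 1 / 2 : ℂ) = τ := by ring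
    rwa [this] at h4
  · have h5 : τ - hh ∈ Lq.lattice := by
      have e : τ - hh = (1 / 2 - kk + τ + kk - Complex.I / 2) - 1 := by unfold hh; ring
      rw [e]
      exact sub_mem h4 one_mem_Lq
    have h6 : ∀ᶠ w in 𝓝[≠] (1 / 2 - kk : ℂ), fR m w = 0 := by
      filter_upwards [h1] with w hw
      have e : w + τ = (w + hh) + (τ - hh) := by ring
      rw [e, fR_periodic m h5, fR_add_hh hm] at hw
      exact neg_eq_self.1 hw
    have h7 := meromorphicOrderAt_eq_top_iff.2 h6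
    rw [h0] at h7
    exact absurd h7 (by simp)

/-- near the poles of `W(z+κ)`, `f² → 1/m²` -/
lemma tendsto_fR_sq {m : ℕ} (hm : Even m) (hm2 : 2 ≤ m) {z : ℂ}
    (hz : z + kk ∈ Lq.lattice ∨ z + kk - hh ∈ Lq.lattice) :
    Tendsto (fun w => fR m w ^ 2) (𝓝[≠] z) (𝓝 (1 / (m : ℂ) ^ 2)) := by
  have hsq : ∀ a t : ℂ, (a ∈ Lq.lattice ∨ a - hh ∈ Lq.lattice) → Wf (t + a) ^ 2 = Wf t ^ 2 := by
    intro a t ha
    rcases ha with h | h
    · rw [Wf_periodic h]
    · have e : t + a = (t + hh) + (a - hh) := by ring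
      rw [e, Wf_periodic h, Wf_add_hh]
      ring
  have hU : ∀ w : ℂ, fR m w ^ 2 = Uf m (w - z) ^ 2 := by
    intro w
    unfold Uf fR
    have e1 : (m : ℂ) * w = m * (w - z) + m * z := by ring
    have e2 : w + kk = (w - z) + (z + kk) := by ring
    rw [div_pow, div_pow, e1, hsq _ _ (half_class hm hz), e2, hsq _ _ hz]
  have h1 : Tendsto (fun w : ℂ => w - z) (𝓝[≠] z) (𝓝[≠] (0 : ℂ)) := by
    apply tendsto_nhdsWithin_of_tendsto_nhds_of_eventually_within
    · have : Continuous (fun w : ℂ => w - z) := by fun_prop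
      have h3 := (this.tendsto z).mono_left (nhdsWithin_le_nhds (s := {z}ᶜ))
      simpa using h3
    · filter_upwards [self_mem_nhdsWithin] with t ht
      exact sub_ne_zero.2 ht
  have h2 := (tendsto_sq_zero (m := m) (by omega)).comp h1
  refine h2.congr fun w => ?_
  exact (hU w).symm

/-- the simple zeros of `f⁴ - 1` are torsion points -/
lemma order_f4 {m : ℕ} (hm : Even m) (hm2 : 2 ≤ m) {z : ℂ} (hz : 2 * (z + kk) ∉ Lq.lattice)
    (hmz : 2 * (m * z) ∉ Lq.lattice) (hU : fR m z ^ 4 = 1) :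
    meromorphicOrderAt (fun w => fR m w ^ 4 - 1) z = 1 ∧ NR m * z ∈ Lq.lattice := by
  have hm1 : 1 ≤ m := by omega
  obtain ⟨u, hu⟩ : ∃ u, u = z + kk := ⟨_, rfl⟩
  rw [← hu] at hz
  have z1 : u ∉ Lq.lattice := fun h => hz (two_mul_mem.mpr (Or.inl h))
  have z2 : u - hh ∉ Lq.lattice := fun h => hz (two_mul_mem.mpr (Or.inr (Or.inl h)))
  have m1 : (m : ℂ) * z ∉ Lq.lattice := fun h => hmz (two_mul_mem.mpr (Or.inl h))
  have m2 : (m : ℂ) * z - hh ∉ Lq.lattice := fun h => hmz (two_mul_mem.mpr (Or.inr (Or.inl h)))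
  have hWz : Wf u ≠ 0 := fun h => hz (Wf_eq_zero_iff.mp h)
  have anaW := Wf_analyticAt z1 z2
  have anaWm := Wf_analyticAt m1 m2
  have hm0 : (m : ℂ) ≠ 0 := by
    have : m ≠ 0 := by omega
    exact_mod_cast this
  have hfz : fR m z = Wf (m * z) / Wf u := by rw [hu]; rfl
  -- the unit
  obtain ⟨ε, hε⟩ : ∃ ε : ℂ, ε = (fR m z)⁻¹ := ⟨_, rfl⟩
  have hU0 : fR m z ≠ 0 := by
    intro h; rw [h] at hU; norm_num at hU
  have hε4 : ε ^ 4 = 1 := by rw [hε, inv_pow, hU, inv_one]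
  have hε0 : ε ≠ 0 := by rw [hε]; exact inv_ne_zero hU0
  have hUε : fR m z = ε⁻¹ := by rw [hε, inv_inv]
  have hW : Wf (m * z) = Wf (ε * u) := by
    rw [Wf_mul_unit hε4, ← hUε, hfz, div_mul_cancel₀ _ hWz]
  have hεz : 2 * (ε * u) ∉ Lq.lattice := by
    intro h
    have e : 2 * (ε * u) = ε * (2 * u) := by ring
    rw [e, unit_mul_mem hε4] at h
    exact hz h
  have hcases := Wf_eq_iff hmz hεz hW
  -- derivative
  have hW'z : deriv Wf u ≠ 0 := by
    apply deriv_Wf_ne_zero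
    intro h
    obtain ⟨k, hk⟩ := hm
    apply hmz
    have h4 : 4 * z ∈ Lq.lattice := by
      have e : 4 * z = 4 * u - 4 * kk := by rw [hu]; ring
      rw [e]
      exact sub_mem h four_kk_mem
    have := nat_mul_mem k h4
    have e : 2 * ((m : ℂ) * z) = (k : ℂ) * (4 * z) := by
      rw [hk]; push_cast; ring
    rw [e]; exact this
  have hεz1 : ε * u ∉ Lq.lattice := fun h => z1 ((unit_mul_mem hε4).mp h)
  have hεz2 : ε * u - hh ∉ Lq.lattice := fun h => hεz (two_mul_mem.mpr (Or.inr (Or.inl h)))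
  have hderivε : deriv Wf (ε * u) = ε⁻¹ ^ 2 * deriv Wf u := by
    have ha : HasDerivAt (fun w => Wf (ε * w)) (deriv Wf (ε * u) * ε) u := by
      have hb : HasDerivAt Wf (deriv Wf (ε * u)) (ε * u) :=
        (Wf_analyticAt hεz1 hεz2).differentiableAt.hasDerivAt
      have hc : HasDerivAt (fun w : ℂ => ε * w) ε u := by
        simpa using (hasDerivAt_id u).const_mul ε
      exact hb.comp u hc
    have hd : HasDerivAt (fun w => Wf (ε * w)) (ε⁻¹ * deriv Wf u) u := by
      have he : (fun w => Wf (ε * w)) = fun w => ε⁻¹ * Wf w := by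
        funext w; exact Wf_mul_unit hε4 w
      rw [he]
      exact anaW.differentiableAt.hasDerivAt.const_mul _
    have hf := ha.unique hd
    calc deriv Wf (ε * u) = (deriv Wf (ε * u) * ε) * ε⁻¹ := by
          rw [mul_assoc, mul_inv_cancel₀ hε0, mul_one]
      _ = (ε⁻¹ * deriv Wf u) * ε⁻¹ := by rw [hf]
      _ = _ := by ring
  have hper : ∀ (l w : ℂ), l ∈ Lq.lattice → deriv Wf (w + l) = deriv Wf w := by
    intro l w hl
    have he : (fun t => Wf (t + l)) = Wf := by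
      funext t; exact Wf_periodic hl t
    calc deriv Wf (w + l) = deriv (fun t => Wf (t + l)) w := (deriv_comp_add_const _ _ _).symm
      _ = deriv Wf w := by rw [he]
  have hrefl : ∀ w : ℂ, deriv Wf (hh - w) = - deriv Wf w := by
    intro w
    have he : (fun t => Wf (hh - t)) = Wf := by
      funext t
      have h1 := Wf_add_hh (-t)
      rw [Wf_neg, neg_neg] at h1
      rw [← h1]; congr 1; ring
    have h2 : deriv (fun t => Wf (hh - t)) w = -deriv Wf (hh - w) := deriv_comp_const_sub _ _ _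
    rw [he] at h2
    rw [h2, neg_neg]
  have hnε : ‖ε‖ = 1 := by
    have : ‖ε‖ ^ 4 = 1 := by rw [← norm_pow, hε4, norm_one]
    exact (pow_eq_one_iff_of_nonneg (norm_nonneg _) (by norm_num)).mp this
  have hmε1 : (m : ℂ) - ε ≠ 0 := by
    intro h
    have h1 : (m : ℂ) = ε := sub_eq_zero.mp h
    have h2 : ‖(m : ℂ)‖ = 1 := by rw [h1, hnε]
    rw [Complex.norm_natCast] at h2
    have : m = 1 := by exact_mod_cast h2
    omega
  have hmε2 : (m : ℂ) + ε ≠ 0 := by
    intro h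
    have h1 : (m : ℂ) = -ε := eq_neg_of_add_eq_zero_left h
    have h2 : ‖(m : ℂ)‖ = 1 := by rw [h1, norm_neg, hnε]
    rw [Complex.norm_natCast] at h2
    have : m = 1 := by exact_mod_cast h2
    omega
  have hderivm : ∃ κ : ℂ, deriv Wf (m * z) = κ * deriv Wf u ∧ κ * m - ε⁻¹ ≠ 0 := by
    rcases hcases with h | h
    · refine ⟨ε⁻¹ ^ 2, ?_, ?_⟩
      · have h1 := hper _ (ε * u) h
        have e : ε * u + ((m : ℂ) * z - ε * u) = m * z := by ring
        rw [e] at h1
        rw [h1, hderivε]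
      · have e : ε⁻¹ ^ 2 * (m : ℂ) - ε⁻¹ = ε⁻¹ ^ 2 * (m - ε) := by
          field_simp
        rw [e]
        exact mul_ne_zero (pow_ne_zero _ (inv_ne_zero hε0)) hmε1
    · refine ⟨-(ε⁻¹ ^ 2), ?_, ?_⟩
      · have h1 := hper _ (hh - ε * u) h
        have e : hh - ε * u + ((m : ℂ) * z + ε * u - hh) = m * z := by ring
        rw [e] at h1
        rw [h1, hrefl, hderivε]; ring
      · have e : -(ε⁻¹ ^ 2) * (m : ℂ) - ε⁻¹ = -(ε⁻¹ ^ 2 * (m + ε)) := by
          field_simp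
          ring
        rw [e]
        exact neg_ne_zero.mpr (mul_ne_zero (pow_ne_zero _ (inv_ne_zero hε0)) hmε2)
  have hWuana : AnalyticAt ℂ (fun w : ℂ => Wf (w + kk)) z := by
    have h : AnalyticAt ℂ Wf (z + kk) := by rw [← hu]; exact anaW
    exact h.fun_comp (g := Wf) (f := fun w : ℂ => w + kk) (by fun_prop)
  constructor
  · -- the order
    have anaU : AnalyticAt ℂ (fR m) z := by
      unfold fR
      refine AnalyticAt.div ?_ hWuana (by rw [← hu]; exact hWz)
      exact anaWm.comp (f := fun w : ℂ => (m : ℂ) * w) (by fun_prop)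
    have hd1 : HasDerivAt (fun w => Wf (m * w)) (deriv Wf (m * z) * m) z := by
      have hb : HasDerivAt Wf (deriv Wf (m * z)) (m * z) := anaWm.differentiableAt.hasDerivAt
      have hc : HasDerivAt (fun w : ℂ => (m : ℂ) * w) m z := by
        simpa using (hasDerivAt_id z).const_mul (m : ℂ)
      exact hb.comp z hc
    have hd0 : HasDerivAt (fun w => Wf (w + kk)) (deriv Wf u) z := by
      have hb : HasDerivAt Wf (deriv Wf (z + kk)) (z + kk) := by
        rw [← hu]; exact anaW.differentiableAt.hasDerivAt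
      have := hb.comp_add_const z kk
      rwa [← hu] at this
    have hd2 : HasDerivAt (fR m) ((deriv Wf (m * z) * m * Wf u - Wf (m * z) * deriv Wf u) /
        Wf u ^ 2) z := by
      have := hd1.div hd0 (by rw [← hu]; exact hWz)
      rw [← hu] at this
      exact this
    obtain ⟨κ, hκ1, hκ2⟩ := hderivm
    have hd3 : (deriv Wf (m * z) * m * Wf u - Wf (m * z) * deriv Wf u) / Wf u ^ 2 ≠ 0 := by
      have e : Wf (m * z) = ε⁻¹ * Wf u := by rw [hW, Wf_mul_unit hε4]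
      rw [hκ1, e]
      have e2 : κ * deriv Wf u * m * Wf u - ε⁻¹ * Wf u * deriv Wf u =
          (κ * m - ε⁻¹) * (deriv Wf u * Wf u) := by ring
      rw [e2]
      exact div_ne_zero (mul_ne_zero hκ2 (mul_ne_zero hW'z hWz)) (pow_ne_zero _ hWz)
    have anaU4 : AnalyticAt ℂ (fun w => fR m w ^ 4) z := anaU.pow 4
    have hd4 : deriv (fun w => fR m w ^ 4) z ≠ 0 := by
      have := (hd2.pow 4).deriv
      have e3 : (fun w => fR m w ^ 4) = (fR m) ^ 4 := by funext w; rfl
      rw [e3, this]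
      refine mul_ne_zero (mul_ne_zero (by norm_num) (pow_ne_zero _ hU0)) hd3
    have h5 := anaU4.analyticOrderAt_sub_eq_one_of_deriv_ne_zero hd4
    have h6 : (fun w => fR m w ^ 4 - fR m z ^ 4) = fun w => fR m w ^ 4 - 1 := by
      rw [hU]
    rw [h6] at h5
    have anaF : AnalyticAt ℂ (fun w => fR m w ^ 4 - 1) z := anaU4.sub analyticAt_const
    rw [anaF.meromorphicOrderAt_eq, h5]
    rfl
  · -- torsion
    have hu4 : ∀ w ∈ Lq.lattice, ε * w ∈ Lq.lattice := fun w hw => (unit_mul_mem hε4).mpr hw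
    rcases hcases with h | h
    · have h4 : 4 * (((m : ℂ) - ε) * z) ∈ Lq.lattice := by
        have e : 4 * (((m : ℂ) - ε) * z) =
            ((4 : ℕ) : ℂ) * ((m : ℂ) * z - ε * u) + ε * (4 * kk) := by
          rw [hu]; push_cast; ring
        rw [e]
        exact add_mem (nat_mul_mem 4 h) (hu4 _ four_kk_mem)
      have e : (NR m : ℂ) * z =
          (m : ℂ) * (m * (m * (4 * (((m : ℂ) - ε) * z)) + ε * (4 * (((m : ℂ) - ε) * z)))) +
          ε * (ε * (m * (4 * (((m : ℂ) - ε) * z)) + ε * (4 * (((m : ℂ) - ε) * z)))) := by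
        rw [NR_cast hm1]
        linear_combination (4 * z) * hε4
      rw [e]
      have h5 := add_mem (nat_mul_mem m h4) (hu4 _ h4)
      exact add_mem (nat_mul_mem m (nat_mul_mem m h5)) (hu4 _ (hu4 _ h5))
    · have h4 : 4 * (((m : ℂ) + ε) * z) ∈ Lq.lattice := by
        have e : 4 * (((m : ℂ) + ε) * z) =
            ((4 : ℕ) : ℂ) * ((m : ℂ) * z + ε * u - hh) - ε * (4 * kk) +
              ((2 : ℕ) : ℂ) * (2 * hh) := by
          rw [hu]; push_cast; ring
        rw [e]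
        exact add_mem (sub_mem (nat_mul_mem 4 h) (hu4 _ four_kk_mem)) (nat_mul_mem 2 two_hh_mem)
      have e : (NR m : ℂ) * z =
          (m : ℂ) * (m * (m * (4 * (((m : ℂ) + ε) * z)) - ε * (4 * (((m : ℂ) + ε) * z)))) +
          ε * (ε * (m * (4 * (((m : ℂ) + ε) * z)) - ε * (4 * (((m : ℂ) + ε) * z)))) := by
        rw [NR_cast hm1]
        linear_combination (4 * z) * hε4
      rw [e]
      have h5 := sub_mem (nat_mul_mem m h4) (hu4 _ h4)
      exact add_mem (nat_mul_mem m (nat_mul_mem m h5)) (hu4 _ (hu4 _ h5))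

end MP79ab39.Rat
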