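import Pool.Agent.Lib_MP_79ab39_r.DefsR
import Pool.Agent.Lib_MP_79ab39_ag.Smooth

/-! The rational surface: equations, multidegrees, smoothness. -/

open MvPolynomial

namespace MP79ab39.Rat

open MP79ab39

/-- `r y x = x² - 1` -/
noncomputable def F1 : MvPolynomial (Coord 3) ℂ :=
  X (2, 0) * X (1, 0) * X (0, 0) * X (0, 1) - X (2, 1) * X (1, 1) * (X (0, 0) ^ 2 - X (0, 1) ^ 2)

/-- `r U = y` -/
noncomputable def F2 : MvPolynomial (Coord 3) ℂ :=
  X (2, 0) * X (3, 0) * X (1, 1) - X (2, 1) * X (3, 1) * X (1, 0)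

/-- `v (2 U² + 1) = (U² - 1) y` -/
noncomputable def F3 : MvPolynomial (Coord 3) ℂ :=
  X (4, 0) * (2 * X (3, 0) ^ 2 + X (3, 1) ^ 2) * X (1, 1) -
    X (4, 1) * (X (3, 0) ^ 2 - X (3, 1) ^ 2) * X (1, 0)

theorem F1_homogeneous : IsMultihomogeneous F1 ![2, 1, 1, 0, 0] := by
  unfold F1
  apply mh_sub
  · refine mh_congr (mh_mul (mh_mul (mh_mul (mh_X 2 0) (mh_X 1 0)) (mh_X 0 0)) (mh_X 0 1)) ?_
    funext i
    fin_cases i <;> rfl
  · refine mh_congr (mh_mul (mh_mul (mh_X 2 1) (mh_X 1 1))
      (mh_sub (mh_pow (mh_X 0 0) 2) (mh_pow (mh_X 0 1) 2))) ?_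
    funext i
    fin_cases i <;> rfl

theorem F2_homogeneous : IsMultihomogeneous F2 ![0, 1, 1, 1, 0] := by
  unfold F2
  apply mh_sub
  · refine mh_congr (mh_mul (mh_mul (mh_X 2 0) (mh_X 3 0)) (mh_X 1 1)) ?_
    funext i
    fin_cases i <;> rfl
  · refine mh_congr (mh_mul (mh_mul (mh_X 2 1) (mh_X 3 1)) (mh_X 1 0)) ?_
    funext i
    fin_cases i <;> rfl

theorem F3_homogeneous : IsMultihomogeneous F3 ![0, 1, 0, 2, 1] := by
  unfold F3
  have h2 : (2 : MvPolynomial (Coord 3) ℂ) = C 2 := by
    rw [map_ofNat]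
  apply mh_sub
  · refine mh_congr (mh_mul (mh_mul (mh_X 4 0)
      (mh_add (mh_congr (mh_mul (h2 ▸ mh_C (c := 3) 2) (mh_pow (mh_X 3 0) 2)) (zero_add _))
        (mh_pow (mh_X 3 1) 2))) (mh_X 1 1)) ?_
    funext i
    fin_cases i <;> rfl
  · refine mh_congr (mh_mul (mh_mul (mh_X 4 1)
      (mh_sub (mh_pow (mh_X 3 0) 2) (mh_pow (mh_X 3 1) 2))) (mh_X 1 0)) ?_
    funext i
    fin_cases i <;> rfl

theorem surface_smooth (x : Coord 3 → ℂ) (hx : IsPoint x)
    (h : ∀ j, eval x ((![F1, F2, F3] : Fin 3 → MvPolynomial (Coord 3) ℂ) j) = 0) :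
    LinearIndependent ℂ (fun (j : Fin 3) (p : Coord 3) =>
      eval x (pderiv p ((![F1, F2, F3] : Fin 3 → MvPolynomial (Coord 3) ℂ) j))) := by
  rw [Fintype.linearIndependent_iff]
  intro g hg
  have e1 := h 0
  have e2 := h 1
  have e3 := h 2
  simp [F1, F2, F3] at e1 e2 e3
  have key : ∀ p : Coord 3, g 0 * eval x (pderiv p F1) + g 1 * eval x (pderiv p F2) +
      g 2 * eval x (pderiv p F3) = 0 := by
    intro p
    have := congrFun hg p
    simpa [Fin.sum_univ_three] using this
  have k00 := key (0, 0)
  have k01 := key (0, 1)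
  have k10 := key (1, 0)
  have k11 := key (1, 1)
  have k20 := key (2, 0)
  have k21 := key (2, 1)
  have k30 := key (3, 0)
  have k31 := key (3, 1)
  have k40 := key (4, 0)
  have k41 := key (4, 1)
  have hX := hx 0
  have hY := hx 1
  have hR := hx 2
  have hU := hx 3
  have hV := hx 4
  clear key hg h hx
  have hp2 : ∀ p : Coord 3, pderiv p (2 : MvPolynomial (Coord 3) ℂ) = 0 := by
    intro p
    have h2 : (2 : MvPolynomial (Coord 3) ℂ) = C 2 := by rw [map_ofNat]
    rw [h2, pderiv_C]
  simp [F1, F2, F3, pderiv_X, hp2, -mul_eq_zero] at k00 k01 k10 k11 k20 k21 k30 k31 k40 k41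
  generalize x (0, 0) = x0 at *
  generalize x (0, 1) = x1 at *
  generalize x (1, 0) = y0 at *
  generalize x (1, 1) = y1 at *
  generalize x (2, 0) = r0 at *
  generalize x (2, 1) = r1 at *
  generalize x (3, 0) = u0 at *
  generalize x (3, 1) = u1 at *
  generalize x (4, 0) = v0 at *
  generalize x (4, 1) = v1 at *
  suffices H : g 0 = 0 ∧ g 1 = 0 ∧ g 2 = 0 by
    intro i
    fin_cases i
    · exact H.1
    · exact H.2.1
    · exact H.2.2
  generalize g 0 = a at *
  generalize g 1 = b at *
  generalize g 2 = c at *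
  have hc : c = 0 := by
    by_contra hc
    have k40' := (mul_eq_zero.1 k40).resolve_left hc
    have k41' := (mul_eq_zero.1 k41).resolve_left hc
    by_cases hy1 : y1 = 0
    · subst hy1
      have hy0 : y0 ≠ 0 := by simpa using hY
      have hp : u0 ^ 2 - u1 ^ 2 = 0 := (mul_eq_zero.1 k41').resolve_left hy0
      have hu1 : u1 ≠ 0 := by
        rintro rfl
        have : u0 = 0 := by
          have h0 : u0 ^ 2 = 0 := by linear_combination hp
          exact pow_eq_zero_iff (by norm_num) |>.1 h0
        simp [this] at hU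
      have hu0 : u0 ≠ 0 := by
        rintro rfl
        apply pow_ne_zero 2 hu1
        linear_combination (-1 : ℂ) * hp
      have hr1 : r1 = 0 := by
        apply mul_right_cancel₀ (mul_ne_zero hu1 hy0)
        linear_combination (-1 : ℂ) * e2
      have hv1 : v1 = 0 := by
        apply mul_left_cancel₀ (mul_ne_zero (mul_ne_zero hc hy0) hu0)
        linear_combination (-1 / 2 : ℂ) * k30
      have hv0 : v0 ≠ 0 := by simpa [hv1] using hV
      have hb : b = 0 := by
        apply mul_right_cancel₀ (mul_ne_zero hy0 hu1)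
        linear_combination (-1 : ℂ) * k21
      subst hr1; subst hb
      apply mul_ne_zero (mul_ne_zero hc hv0) (pow_ne_zero 2 hu1)
      linear_combination (1 / 3 : ℂ) * k11 - (2 / 3 : ℂ) * c * v0 * hp
    · have hq : 2 * u0 ^ 2 + u1 ^ 2 = 0 := (mul_eq_zero.1 k40').resolve_left hy1
      have hu0 : u0 ≠ 0 := by
        rintro rfl
        have : u1 = 0 := by
          have h0 : u1 ^ 2 = 0 := by linear_combination hq
          exact pow_eq_zero_iff (by norm_num) |>.1 h0
        simp [this] at hU
      have hy0 : y0 = 0 := by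
        apply mul_right_cancel₀ (pow_ne_zero 2 hu0)
        linear_combination (1 / 3 : ℂ) * k41' + (1 / 3 : ℂ) * y0 * hq
      subst hy0
      have hr0 : r0 = 0 := by
        apply mul_right_cancel₀ (mul_ne_zero hu0 hy1)
        linear_combination e2
      have hv0 : v0 = 0 := by
        subst hr0
        apply mul_left_cancel₀ (mul_ne_zero (mul_ne_zero hc hy1) hu0)
        linear_combination (1 / 4 : ℂ) * k30
      have hv1 : v1 ≠ 0 := by simpa [hv0] using hV
      have hb : b = 0 := by
        apply mul_right_cancel₀ (mul_ne_zero hy1 hu0)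
        linear_combination k20
      subst hr0; subst hb
      apply mul_ne_zero (mul_ne_zero hc hv1) (pow_ne_zero 2 hu0)
      linear_combination (-1 / 3 : ℂ) * k10 + (1 / 3 : ℂ) * c * v1 * hq
  subst hc
  have hb : b = 0 := by
    by_contra hb
    by_cases hy1 : y1 = 0
    · subst hy1
      have hy0 : y0 ≠ 0 := by simpa using hY
      have hr1 : r1 = 0 := by
        apply mul_left_cancel₀ (mul_ne_zero hb hy0)
        linear_combination (-1 : ℂ) * k31
      have hr0 : r0 ≠ 0 := by simpa [hr1] using hR
      subst hr1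
      have hu0 : u0 = 0 := by
        apply mul_left_cancel₀ (mul_ne_zero hb hr0)
        linear_combination k11
      have hu1 : u1 = 0 := by
        apply mul_left_cancel₀ (mul_ne_zero hb hy0)
        linear_combination (-1 : ℂ) * k21
      simp [hu0, hu1] at hU
    · have hr0 : r0 = 0 := by
        apply mul_left_cancel₀ (mul_ne_zero hb hy1)
        linear_combination k30
      have hr1 : r1 ≠ 0 := by simpa [hr0] using hR
      have hy0 : y0 = 0 := by
        apply mul_right_cancel₀ (mul_ne_zero hb hr1)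
        linear_combination (-1 : ℂ) * k31
      subst hr0; subst hy0
      have hu0 : u0 = 0 := by
        apply mul_left_cancel₀ (mul_ne_zero hb hy1)
        linear_combination k20
      have hu1 : u1 = 0 := by
        apply mul_left_cancel₀ (mul_ne_zero hb hr1)
        linear_combination (-1 : ℂ) * k10
      simp [hu0, hu1] at hU
  subst hb
  have ha : a = 0 := by
    by_contra ha
    by_cases hxx : x0 * x1 = 0
    · have hx2 : x0 ^ 2 - x1 ^ 2 ≠ 0 := by
        intro h2
        rcases mul_eq_zero.1 hxx with h0 | h0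
        · subst h0
          have : x1 = 0 := by
            have h0 : x1 ^ 2 = 0 := by linear_combination (-1 : ℂ) * h2
            exact pow_eq_zero_iff (by norm_num) |>.1 h0
          simp [this] at hX
        · subst h0
          have : x0 = 0 := by
            have h0 : x0 ^ 2 = 0 := by linear_combination h2
            exact pow_eq_zero_iff (by norm_num) |>.1 h0
          simp [this] at hX
      have hy1 : y1 = 0 := by
        apply mul_left_cancel₀ (mul_ne_zero ha hx2)
        linear_combination (-1 : ℂ) * k21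
      have hr1 : r1 = 0 := by
        apply mul_left_cancel₀ (mul_ne_zero ha hx2)
        linear_combination (-1 : ℂ) * k11
      have hy0 : y0 ≠ 0 := by simpa [hy1] using hY
      have hr0 : r0 ≠ 0 := by simpa [hr1] using hR
      subst hy1; subst hr1
      have hx1 : x1 = 0 := by
        apply mul_left_cancel₀ (mul_ne_zero ha (mul_ne_zero hr0 hy0))
        linear_combination k00
      have hx0 : x0 = 0 := by
        apply mul_left_cancel₀ (mul_ne_zero ha (mul_ne_zero hr0 hy0))
        linear_combination k01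
      simp [hx0, hx1] at hX
    · have hy0 : y0 = 0 := by
        apply mul_left_cancel₀ (mul_ne_zero ha hxx)
        linear_combination k20
      have hr0 : r0 = 0 := by
        apply mul_left_cancel₀ (mul_ne_zero ha hxx)
        linear_combination k10
      have hy1 : y1 ≠ 0 := by simpa [hy0] using hY
      have hr1 : r1 ≠ 0 := by simpa [hr0] using hR
      subst hy0; subst hr0
      apply mul_ne_zero (mul_ne_zero ha (mul_ne_zero hr1 hy1)) (left_ne_zero_of_mul hxx)
      linear_combination (-1 / 2 : ℂ) * k00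
  exact ⟨ha, rfl, rfl⟩

end MP79ab39.Rat
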